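import Pool.Agent.Lib_helper87.NefK.YDefs

/-!
# The generic point of `Y`
-/

namespace NefK

open Nef87 NefRed Finset

section

variable (k : Type) [Field k]

/-- The function field of `Y`. -/
abbrev FY : Type := FractionRing (MvPolynomial (Fin 6) k)

/-- The coordinates `(1, X_0, …, X_3)`. -/
noncomputable def bPoly : Fin 5 → MvPolynomial (Fin 6) k :=
  ![1, MvPolynomial.X 0, MvPolynomial.X 1, MvPolynomial.X 2, MvPolynomial.X 3]

/-- The variables in the function field. -/
noncomputable def XF (i : Fin 6) : FY k := algebraMap (MvPolynomial (Fin 6) k) (FY k) (MvPolynomial.X i)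

/-- The generic point of `ℙ⁴`. -/
noncomputable def bF (i : Fin 5) : FY k := algebraMap (MvPolynomial (Fin 6) k) (FY k) (bPoly k i)

/-- The generic point of `Y`. -/
noncomputable def genY : ∀ j, Coord j → FY k := pts (bF k) (XF k 4) (XF k 5)

variable {k}

lemma XF_injective {i j : Fin 6} (h : XF k i = XF k j) : i = j := by
  have := IsFractionRing.injective (MvPolynomial (Fin 6) k) (FY k) h
  exact MvPolynomial.X_injective this

lemma XF_ne_zero (i : Fin 6) : XF k i ≠ 0 := by
  intro h
  have : algebraMap (MvPolynomial (Fin 6) k) (FY k) (MvPolynomial.X i) =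
    algebraMap (MvPolynomial (Fin 6) k) (FY k) 0 := by rw [map_zero]; exact h
  exact MvPolynomial.X_ne_zero i (IsFractionRing.injective (MvPolynomial (Fin 6) k) (FY k) this)

lemma algebraMap_ne_zero_of_eval {P : MvPolynomial (Fin 6) k} (e : Fin 6 → k)
    (h : MvPolynomial.eval e P ≠ 0) : algebraMap (MvPolynomial (Fin 6) k) (FY k) P ≠ 0 := by
  intro h0
  have h1 : P = 0 := by
    apply IsFractionRing.injective (MvPolynomial (Fin 6) k) (FY k)
    rw [h0, map_zero]
  rw [h1, map_zero] at h
  exact h rfl

lemma bF_zero : bF k 0 = 1 := by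
  simp [bF, bPoly]

lemma bF_succ (i : Fin 4) : bF k i.succ = XF k (Fin.castLE (by omega) i) := by
  fin_cases i <;> rfl

lemma one_add_s_ne_zero : (1 + XF k 4) ≠ 0 := by
  have h : (1 + XF k 4) = algebraMap (MvPolynomial (Fin 6) k) (FY k) (1 + MvPolynomial.X 4) := by
    rw [map_add, map_one]; rfl
  rw [h]
  exact algebraMap_ne_zero_of_eval (fun _ => 0) (by simp)

lemma bF_ne_zero (i : Fin 5) : bF k i ≠ 0 := by
  refine Fin.cases ?_ (fun i => ?_) i
  · rw [bF_zero]; exact one_ne_zero
  · rw [bF_succ]; exact XF_ne_zero _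

lemma bF_injective {i j : Fin 5} (h : bF k i = bF k j) : i = j := by
  have h1 := IsFractionRing.injective (MvPolynomial (Fin 6) k) (FY k) h
  have hX : ∀ i : Fin 6, (1 : MvPolynomial (Fin 6) k) ≠ MvPolynomial.X i := by
    intro i h
    have := congrArg (MvPolynomial.eval fun _ => (0 : k)) h
    simp at this
  have hXX : ∀ i j : Fin 6, (MvPolynomial.X i : MvPolynomial (Fin 6) k) = MvPolynomial.X j → i = j :=
    fun i j h => MvPolynomial.X_injective h
  fin_cases i <;> fin_cases j <;> simp only [bPoly] at h1 <;>
    first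
      | rfl
      | exact absurd h1 (hX _)
      | exact absurd h1.symm (hX _)
      | exact absurd (hXX _ _ h1) (by decide)

/-- An index at which the projection of the generic point does not vanish. -/
lemma exists_projS_bF (S : OddSet) : ∃ l, projS S (bF k) l ≠ 0 := by
  by_cases h0 : (0 : Fin 5) ∈ S.1
  · by_cases h1 : (1 : Fin 5) ∈ S.1
    · refine ⟨1, ?_⟩
      have hmin : S.1.min' S.nonempty = 0 :=
        le_antisymm (Finset.min'_le _ _ h0) (Fin.zero_le _)
      rw [projS, if_pos h1, hmin, sub_ne_zero]
      intro h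
      exact absurd (bF_injective h) (by decide)
    · refine ⟨1, ?_⟩
      rw [projS, if_neg h1]
      exact bF_ne_zero 1
  · refine ⟨0, ?_⟩
    rw [projS, if_neg h0]
    exact bF_ne_zero 0

/-- A choice of such an index. -/
noncomputable def lS (k : Type) [Field k] (S : OddSet) : Fin 5 := (exists_projS_bF (k := k) S).choose

lemma lS_spec (S : OddSet) : projS S (bF k) (lS k S) ≠ 0 := (exists_projS_bF (k := k) S).choose_spec

lemma genY_ne (j : Option (Option OddSet)) : ∃ l, genY k j l ≠ 0 := by
  match j with
  | none =>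
    refine ⟨(1, 0, fun _ => 0), ?_⟩
    simp only [genY, pts, qCoef, qE, qF]
    simp [bF_zero, XF_ne_zero, one_add_s_ne_zero]
  | some none => exact ⟨0, bF_ne_zero 0⟩
  | some (some S) => exact exists_projS_bF S

/-- Intermediate fields containing the variables are everything. -/
lemma eq_top_of_XF (L : IntermediateField k (FY k)) (h : ∀ i, XF k i ∈ L) : L = ⊤ := by
  rw [eq_top_iff]
  intro z _
  have hpoly : ∀ P : MvPolynomial (Fin 6) k, algebraMap (MvPolynomial (Fin 6) k) (FY k) P ∈ L := by
    intro P
    induction P using MvPolynomial.induction_on with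
    | C a =>
      have : algebraMap (MvPolynomial (Fin 6) k) (FY k) (MvPolynomial.C a) = algebraMap k (FY k) a := by
        rw [← MvPolynomial.algebraMap_eq, ← IsScalarTower.algebraMap_apply]
      rw [this]
      exact L.algebraMap_mem a
    | add p q hp hq => rw [map_add]; exact L.add_mem hp hq
    | mul_X p i hp => rw [map_mul]; exact L.mul_mem hp (h i)
  obtain ⟨a, b, _, rfl⟩ := IsFractionRing.div_surjective (A := MvPolynomial (Fin 6) k) z
  exact L.div_mem (hpoly a) (hpoly b)

lemma adjoin_ratios :
    IntermediateField.adjoin k {z : FY k | ∃ j l l', z = genY k j l / genY k j l'} = ⊤ := by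
  set L := IntermediateField.adjoin k {z : FY k | ∃ j l l', z = genY k j l / genY k j l'} with hL
  have hmem : ∀ j l l', genY k j l / genY k j l' ∈ L := fun j l l' =>
    IntermediateField.subset_adjoin k _ ⟨j, l, l', rfl⟩
  have hb : ∀ i, bF k i ∈ L := by
    intro i
    have h := hmem (some none) i (0 : Fin 5)
    have e : genY k (some none) i / genY k (some none) (0 : Fin 5) = bF k i := by
      simp only [genY, pts, bF_zero, div_one]
    rwa [e] at h
  have hP : XF k 4 * (1 + XF k 4) ≠ 0 := mul_ne_zero (XF_ne_zero 4) one_add_s_ne_zero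
  have hs : XF k 4 ∈ L := by
    have h := hmem none (0, 0, fun _ => 0) (1, 0, fun _ => 0)
    have e : genY k none (0, 0, fun _ => 0) / genY k none (1, 0, fun _ => 0) = XF k 4 := by
      simp only [genY, pts, qCoef, qE, qF, bF_zero]
      simp only [Matrix.cons_val_zero, Matrix.cons_val_one, one_pow, mul_one, pow_zero]
      rw [mul_div_assoc, div_self hP, mul_one]
    rwa [e] at h
  have hproj : ∀ S : OddSet, ∀ l, projS S (bF k) l ∈ L := by
    intro S l
    unfold projS
    split_ifs
    · exact L.sub_mem (hb _) (hb _)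
    · exact hb _
  have hw : XF k 5 ∈ L := by
    have h := hmem none (2, 0, lS k) (1, 0, fun _ => 0)
    have hne : (∏ S, projS S (bF k) (lS k S)) ^ 4 ≠ 0 :=
      pow_ne_zero _ (Finset.prod_ne_zero_iff.mpr fun S _ => lS_spec S)
    have e : genY k none (2, 0, lS k) / genY k none (1, 0, fun _ => 0) =
        XF k 5 * (∏ S, projS S (bF k) (lS k S)) ^ 4 := by
      simp only [genY, pts, qCoef, qE, qF, bF_zero]
      simp only [Matrix.cons_val_one, Matrix.cons_val, one_pow, mul_one, pow_zero]
      rw [div_eq_iff hP]; ring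
    rw [e] at h
    have h3 : (∏ S, projS S (bF k) (lS k S)) ^ 4 ∈ L := by
      refine L.pow_mem ?_ 4
      exact prod_mem fun S _ => hproj S (lS k S)
    have h2 := L.div_mem h h3
    rwa [mul_div_cancel_right₀ _ hne] at h2
  refine eq_top_of_XF L fun i => ?_
  fin_cases i
  · exact hb 1
  · exact hb 2
  · exact hb 3
  · exact hb 4
  · exact hs
  · exact hw

end

end NefK
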