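import Pool.Agent.Lib_helper87.NefK.Defs

/-!
# Comparison of the two versions of the definition of the canonical class
-/

namespace NefC

open scoped WithZero
open NefRed NefK

variable {k F : Type} [Field k] [Field F] [Algebra k F]

lemma mem_canonicalModule_iff_old (d : ℕ) (v : Valuation F ℤᵐ⁰) (η : ExtPow F (Diff k F) d) :
    η ∈ canonicalModule k d v ↔
      (η : ⋀[F]^d (Ω[F⁄k])) ∈ NefK.canonicalModule k d v := by
  constructor
  · intro h
    unfold canonicalModule at h
    induction h using AddSubgroup.closure_induction with
    | mem x hx =>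
      obtain ⟨f, z, hf, hz, rfl⟩ := hx
      have h1 : NefK.wedge k z ∈ NefK.canonicalModule k d v :=
        Submodule.subset_span ⟨z, hz, rfl⟩
      exact Submodule.smul_mem (NefK.canonicalModule k d v) (⟨f, hf⟩ : v.integer) h1
    | zero => exact Submodule.zero_mem _
    | add x y _ _ hx hy => exact Submodule.add_mem _ hx hy
    | neg x _ hx => exact Submodule.neg_mem _ hx
  · intro h
    change @Membership.mem (⋀[F]^d (Ω[F⁄k])) _ _ (NefK.canonicalModule k d v) η at h
    unfold NefK.canonicalModule at h
    induction h using Submodule.span_induction with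
    | mem x hx =>
      obtain ⟨z, hz, rfl⟩ := hx
      refine AddSubgroup.subset_closure ⟨1, z, by rw [map_one], hz, ?_⟩
      rw [one_smul]
      rfl
    | zero => exact AddSubgroup.zero_mem _
    | add x y _ _ hx hy => exact AddSubgroup.add_mem _ hx hy
    | smul r x _ hx =>
      have key : ∀ y : ExtPow F (Diff k F) d, y ∈ canonicalModule k d v →
          (r : F) • y ∈ canonicalModule k d v := by
        intro y hy
        unfold canonicalModule at hy
        induction hy using AddSubgroup.closure_induction with
        | mem x hx =>
          obtain ⟨f, z, hf, hz, rfl⟩ := hx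
          refine AddSubgroup.subset_closure ⟨r * f, z, ?_, hz, ?_⟩
          · rw [map_mul]; exact mul_le_one' r.2 hf
          · rw [smul_smul]
        | zero => rw [smul_zero]; exact AddSubgroup.zero_mem _
        | add x y _ _ hx hy => rw [smul_add]; exact AddSubgroup.add_mem _ hx hy
        | neg x _ hx => rw [smul_neg]; exact AddSubgroup.neg_mem _ hx
      exact key _ hx

theorem isCanonical_of_old {ι : Type} {σ : ι → Type} [Fintype ι] [∀ j, Fintype (σ j)] {d : ℕ}
    {x : ∀ j, σ j → F} {a : ι → ℤ} (h : NefK.IsCanonical k d x a) : IsCanonical k d x a := by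
  obtain ⟨ht, ω, hω, h⟩ := h
  refine ⟨ht, ω, hω, fun v hv η => ?_⟩
  exact (mem_canonicalModule_iff_old d v.val η).trans (h v hv η)

end NefC
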