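import Pool.Agent.Lib_helper87.NefK.Statement

/-!
# The canonical class: working version of the definitions
-/

namespace NefK

open scoped WithZero
open NefRed

/-- `dz_1 ∧ ⋯ ∧ dz_d` in the `d`-th exterior power of the module of Kähler differentials. -/
noncomputable def wedge (k : Type) {F : Type} [Field k] [Field F] [Algebra k F] {d : ℕ}
    (z : Fin d → F) : ⋀[F]^d (Ω[F⁄k]) :=
  exteriorPower.ιMulti F d fun i => KaehlerDifferential.D k F (z i)

/-- The canonical module at the discrete valuation `v`, with valuation ring `𝒪`: the `𝒪`-module of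
rational `d`-forms generated by the `dz_1 ∧ ⋯ ∧ dz_d` with `z_1, …, z_d ∈ 𝒪`. -/
noncomputable def canonicalModule (k : Type) {F : Type} [Field k] [Field F] [Algebra k F] (d : ℕ)
    (v : Valuation F ℤᵐ⁰) : Submodule v.integer (⋀[F]^d (Ω[F⁄k])) :=
  Submodule.span v.integer {η | ∃ z : Fin d → F, (∀ i, v (z i) ≤ 1) ∧ η = wedge k z}

/-- Working version of `NefC.IsCanonical`. -/
def IsCanonical {ι : Type} {σ : ι → Type} [Fintype ι] [∀ j, Fintype (σ j)] (k : Type) {F : Type}
    [Field k] [Field F] [Algebra k F] (d : ℕ) (x : ∀ j, σ j → F) (a : ι → ℤ) : Prop :=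
  (∃ t : Fin d → F, IsTranscendenceBasis k t) ∧
  ∃ ω : ⋀[F]^d (Ω[F⁄k]), ω ≠ 0 ∧ ∀ v : Place k F, IsPrimeDivisor d x v →
    ∀ η : ⋀[F]^d (Ω[F⁄k]), η ∈ canonicalModule k d v.val ↔
      ∃ f : F, v.val f ≤ ∏ j, (vmax v.val (x j)) ^ (a j) ∧ η = f • ω

end NefK
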