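import Mathlib
import Pool.Agent.Lib_helper87.NefK.Defs

/-!
# Closed subschemes of products of projective spaces given by graphs of rational maps

This is helper85's file `NefKernel` with arbitrary finite index types for the blocks (`ι`) and the
coordinates (`σ j`).
-/

set_option linter.overlappingInstances false
set_option linter.unusedSectionVars false

namespace NefK

open MvPolynomial

/-- The homomorphism `ℤ[x_{j,l}] → ℤ[y, t]`, `x_{j,l} ↦ t_j B_{j,l}(y)`. -/
noncomputable def phi {τ ι : Type} {σ : ι → Type} (B : ∀ j, σ j → MvPolynomial τ ℤ) :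
    MvPolynomial ((j : ι) × σ j) ℤ →ₐ[ℤ] MvPolynomial (τ ⊕ ι) ℤ :=
  MvPolynomial.aeval fun jl =>
    MvPolynomial.X (Sum.inr jl.1) * MvPolynomial.rename Sum.inl (B jl.1 jl.2)

/-- The ideal of the closure of the image of the rational map `y ↦ (B_j(y))_j` to the product of
the projective spaces with homogeneous coordinates `(x_{j,l})_l`: the polynomials vanishing
identically at `x_{j,l} = t_j B_{j,l}(y)`, where the `y_i` and the `t_j` are variables. -/
noncomputable def graphIdeal {τ ι : Type} {σ : ι → Type} (B : ∀ j, σ j → MvPolynomial τ ℤ) :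
    Ideal (MvPolynomial ((j : ι) × σ j) ℤ) := RingHom.ker (phi B)

variable {τ ι : Type} {σ : ι → Type} [Fintype ι] [DecidableEq ι] [∀ j, Fintype (σ j)]

theorem graphIdeal_eval {K : Type} [Field K]
    (B : ∀ j, σ j → MvPolynomial τ ℤ) (y : τ → K) (t : ι → K) :
    ∀ f ∈ graphIdeal B,
      MvPolynomial.aeval (fun jl : (j : ι) × σ j => t jl.1 * MvPolynomial.aeval y (B jl.1 jl.2)) f
        = 0 := by
  intro f hf
  have h1 : phi B f = 0 := hf
  have h2 := congrArg (MvPolynomial.aeval (Sum.elim y t) : MvPolynomial (τ ⊕ ι) ℤ →ₐ[ℤ] K) h1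
  rw [map_zero, phi, ← AlgHom.comp_apply, comp_aeval] at h2
  rw [← h2]
  congr 2
  funext jl
  simp [aeval_rename, Function.comp_def]

/-- weights on the source -/
noncomputable def wtS {ι : Type} (σ : ι → Type) [DecidableEq ι] : (j : ι) × σ j → (ι → ℕ) := fun jl => Pi.single jl.1 1

/-- weights on the target -/
noncomputable def wtT (τ ι : Type) [DecidableEq ι] : τ ⊕ ι → (ι → ℕ) :=
  Sum.elim (fun _ => 0) (fun j => Pi.single j 1)

theorem weight_wtS (μ : (j : ι) × σ j →₀ ℕ) (j : ι) :
    (Finsupp.weight (wtS σ) μ) j = ∑ l, μ ⟨j, l⟩ := by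
  rw [Finsupp.weight_apply, Finsupp.sum_fintype _ _ (by simp), Finset.sum_apply,
    Fintype.sum_sigma, Finset.sum_eq_single j]
  · simp [wtS]
  · intro j' _ hj'
    refine Finset.sum_eq_zero fun l _ => ?_
    simp [wtS, Pi.single_eq_of_ne (Ne.symm hj')]
  · intro h; exact absurd (Finset.mem_univ _) h

theorem multiHomogeneous_of {f : MvPolynomial ((j : ι) × σ j) ℤ} {d : ι → ℕ}
    (h : IsWeightedHomogeneous (wtS σ) f d) : MultiHomogeneous f := by
  refine ⟨d, fun μ hμ j => ?_⟩
  rw [← weight_wtS, h (mem_support_iff.mp hμ)]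

theorem phi_monomial_homogeneous (B : ∀ j, σ j → MvPolynomial τ ℤ)
    (μ : (j : ι) × σ j →₀ ℕ) (c : ℤ) :
    IsWeightedHomogeneous (wtT τ ι) (phi B (monomial μ c)) (Finsupp.weight (wtS σ) μ) := by
  have hB : ∀ P : MvPolynomial τ ℤ, IsWeightedHomogeneous (wtT τ ι)
      (rename (Sum.inl : τ → τ ⊕ ι) P) 0 := by
    intro P ν hν
    obtain ⟨u, hu, -⟩ := coeff_rename_ne_zero _ _ _ hν
    rw [← hu, Finsupp.weight_apply, Finsupp.sum_mapDomain_index (by simp)
      (by intros; rw [add_smul])]
    simp [wtT, Finsupp.sum]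
  have hX : ∀ jl : (j : ι) × σ j, IsWeightedHomogeneous (wtT τ ι)
      ((X (Sum.inr jl.1) * rename Sum.inl (B jl.1 jl.2) : MvPolynomial (τ ⊕ ι) ℤ))
      (wtS σ jl) := by
    intro jl
    have := (isWeightedHomogeneous_X ℤ (wtT τ ι) (Sum.inr jl.1)).mul (hB (B jl.1 jl.2))
    rwa [add_zero] at this
  unfold phi
  rw [aeval_monomial, Finsupp.weight_apply, Finsupp.prod, Finsupp.sum]
  have h1 := IsWeightedHomogeneous.prod μ.support
    (fun jl => ((X (Sum.inr jl.1) * rename Sum.inl (B jl.1 jl.2) :
      MvPolynomial (τ ⊕ ι) ℤ)) ^ μ jl) (fun jl => μ jl • wtS σ jl)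
    (fun jl _ => (hX jl).pow (μ jl))
  exact h1.C_mul c

theorem phi_component (B : ∀ j, σ j → MvPolynomial τ ℤ)
    (f : MvPolynomial ((j : ι) × σ j) ℤ) (d : ι → ℕ) :
    phi B (weightedHomogeneousComponent (wtS σ) d f) =
      weightedHomogeneousComponent (wtT τ ι) d (phi B f) := by
  classical
  induction f using MvPolynomial.induction_on' with
  | monomial μ c =>
    rw [weightedHomogeneousComponent_of_mem (isWeightedHomogeneous_monomial (wtS σ) μ c rfl),
      weightedHomogeneousComponent_of_mem (phi_monomial_homogeneous B μ c)]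
    split_ifs
    · rfl
    · rw [map_zero]
  | add p q hp hq =>
    rw [map_add, map_add, map_add, map_add, hp, hq]

/-- The graph ideal is generated by multihomogeneous polynomials. -/
theorem graphIdeal_multihomogeneous (B : ∀ j, σ j → MvPolynomial τ ℤ) :
    Ideal.span {f | f ∈ graphIdeal B ∧ MultiHomogeneous f} = graphIdeal B := by
  apply le_antisymm
  · rw [Ideal.span_le]
    intro f hf
    exact hf.1
  · intro f hf
    have hf0 : phi B f = 0 := hf
    rw [← sum_weightedHomogeneousComponent (wtS σ) f,
      finsum_eq_sum _ (weightedHomogeneousComponent_finsupp f)]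
    refine Ideal.sum_mem _ fun d _ => Ideal.subset_span ⟨?_, ?_⟩
    · change phi B _ = 0
      rw [phi_component, hf0, map_zero]
    · exact multiHomogeneous_of (weightedHomogeneousComponent_isWeightedHomogeneous d f)

/-- the same homomorphism over a field -/
noncomputable def phiK (k : Type*) [Field k] {τ ι : Type} {σ : ι → Type}
    (B : ∀ j, σ j → MvPolynomial τ ℤ) :
    MvPolynomial ((j : ι) × σ j) k →ₐ[k] MvPolynomial (τ ⊕ ι) k :=
  MvPolynomial.aeval fun jl => MvPolynomial.map (Int.castRingHom k)
    (MvPolynomial.X (Sum.inr jl.1) * MvPolynomial.rename Sum.inl (B jl.1 jl.2))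

theorem phiK_map {k : Type*} [Field k]
    (B : ∀ j, σ j → MvPolynomial τ ℤ) (f : MvPolynomial ((j : ι) × σ j) ℤ) :
    phiK k B (MvPolynomial.map (Int.castRingHom k) f) =
      MvPolynomial.map (Int.castRingHom k) (phi B f) := by
  induction f using MvPolynomial.induction_on with
  | C a => simp [phiK, phi]
  | add p q hp hq => rw [map_add, map_add, map_add, map_add, hp, hq]
  | mul_X p i hp =>
    rw [map_mul, map_mul, map_mul, map_mul, hp]
    simp [phiK, phi]

/-- coefficientwise application of a linear form -/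
noncomputable def coordPoly {k : Type*} [Field k] [Algebra ℚ k] {σ : Type*} (L : k →ₗ[ℚ] ℚ)
    (f : MvPolynomial σ k) : MvPolynomial σ ℚ :=
  ∑ μ ∈ f.support, monomial μ (L (f.coeff μ))

theorem coeff_coordPoly {k : Type*} [Field k] [Algebra ℚ k] {σ : Type*} (L : k →ₗ[ℚ] ℚ)
    (f : MvPolynomial σ k) (μ : σ →₀ ℕ) : (coordPoly L f).coeff μ = L (f.coeff μ) := by
  classical
  unfold coordPoly
  rw [coeff_sum]
  simp only [coeff_monomial]
  rw [Finset.sum_ite_eq']
  split_ifs with h
  · rfl
  · rw [notMem_support_iff.mp h, map_zero]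

theorem coordPoly_phi {k : Type*} [Field k] [Algebra ℚ k]
    (B : ∀ j, σ j → MvPolynomial τ ℤ) (L : k →ₗ[ℚ] ℚ)
    (f : MvPolynomial ((j : ι) × σ j) k) :
    phiK ℚ B (coordPoly L f) = coordPoly L (phiK k B f) := by
  have hadd : ∀ (σ : Type) (p q : MvPolynomial σ k), coordPoly L (p + q) =
      coordPoly L p + coordPoly L q := by
    intro σ p q
    ext μ
    rw [coeff_add, coeff_coordPoly, coeff_coordPoly, coeff_coordPoly, coeff_add, map_add]
  have hmul : ∀ (σ : Type) (c : k) (p : MvPolynomial σ ℤ),
      coordPoly L (C c * MvPolynomial.map (Int.castRingHom k) p) =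
        C (L c) * MvPolynomial.map (Int.castRingHom ℚ) p := by
    intro σ c p
    ext μ
    rw [coeff_coordPoly, coeff_C_mul, coeff_C_mul, coeff_map, coeff_map]
    simp only [Int.coe_castRingHom]
    rw [mul_comm, ← zsmul_eq_mul, map_zsmul, zsmul_eq_mul, mul_comm]
  induction f using MvPolynomial.induction_on' with
  | monomial μ c =>
    have h1 : (monomial μ c : MvPolynomial ((j : ι) × σ j) k) =
        C c * MvPolynomial.map (Int.castRingHom k) (monomial μ 1) := by
      rw [map_monomial, map_one, C_mul_monomial, mul_one]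
    have h2 : phiK ℚ B (C (L c)) = C (L c) := by simp [phiK]
    have h3 : phiK k B (C c) = C c := by simp [phiK]
    rw [h1, hmul, map_mul, map_mul, phiK_map, phiK_map, h2, h3, hmul]
  | add p q hp hq => rw [hadd, map_add, map_add, hadd, hp, hq]

theorem mem_of_phiQ (B : ∀ j, σ j → MvPolynomial τ ℤ)
    (g : MvPolynomial ((j : ι) × σ j) ℚ) (hg : phiK ℚ B g = 0) :
    ∃ N : ℤ, N ≠ 0 ∧ ∃ g' ∈ graphIdeal B, C (N : ℚ) * g =
      MvPolynomial.map (Int.castRingHom ℚ) g' := by
  obtain ⟨b, hb⟩ := IsLocalization.exist_integer_multiples (nonZeroDivisors ℤ) g.support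
    (fun μ => g.coeff μ)
  have hb' : ∀ μ, ∃ z : ℤ, ((b : ℤ) : ℚ) * g.coeff μ = z := by
    intro μ
    by_cases hμ : μ ∈ g.support
    · obtain ⟨z, hz⟩ := hb μ hμ
      refine ⟨z, ?_⟩
      simp only [Algebra.smul_def, algebraMap_int_eq, eq_intCast] at hz
      exact hz.symm
    · exact ⟨0, by rw [notMem_support_iff.mp hμ]; simp⟩
  choose z hz using hb'
  have h1 : MvPolynomial.map (Int.castRingHom ℚ) (∑ μ ∈ g.support, monomial μ (z μ)) =
      C ((b : ℤ) : ℚ) * g := by
    classical
    ext ν
    rw [coeff_map, coeff_sum, coeff_C_mul]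
    simp only [coeff_monomial]
    rw [Finset.sum_ite_eq']
    split_ifs with h
    · rw [hz ν]; simp
    · rw [notMem_support_iff.mp h]; simp
  refine ⟨b, nonZeroDivisors.coe_ne_zero b, ∑ μ ∈ g.support, monomial μ (z μ), ?_, h1.symm⟩
  change phi B _ = 0
  apply MvPolynomial.map_injective (Int.castRingHom ℚ) (RingHom.injective_int _)
  rw [← phiK_map, h1, map_mul, hg, mul_zero, map_zero]

/-- Over a field of characteristic zero the graph ideal generates the kernel. -/
theorem map_graphIdeal (k : Type) [Field k] [CharZero k]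
    (B : ∀ j, σ j → MvPolynomial τ ℤ) :
    (graphIdeal B).map (MvPolynomial.map (Int.castRingHom k)) = RingHom.ker (phiK k B) := by
  apply le_antisymm
  · rw [Ideal.map_le_iff_le_comap]
    intro f hf
    rw [Ideal.mem_comap, RingHom.mem_ker, phiK_map]
    rw [show phi B f = 0 from hf, map_zero]
  · intro f hf
    rw [RingHom.mem_ker] at hf
    let b := Module.Basis.ofVectorSpace ℚ k
    have hcoord : ∀ i, ∃ N : ℤ, N ≠ 0 ∧ ∃ g' ∈ graphIdeal B,
        C (N : ℚ) * coordPoly (b.coord i) f = MvPolynomial.map (Int.castRingHom ℚ) g' := by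
      intro i
      apply mem_of_phiQ
      rw [coordPoly_phi, hf]
      simp [coordPoly]
    have hmem : ∀ i, MvPolynomial.map (algebraMap ℚ k) (coordPoly (b.coord i) f) ∈
        (graphIdeal B).map (MvPolynomial.map (Int.castRingHom k)) := by
      intro i
      obtain ⟨N, hN, g', hg', hNg⟩ := hcoord i
      have h1 := congrArg (MvPolynomial.map (algebraMap ℚ k)) hNg
      rw [map_mul, map_C, map_map] at h1
      have h2 : (algebraMap ℚ k).comp (Int.castRingHom ℚ) = Int.castRingHom k :=
        RingHom.ext_int _ _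
      have h3 : MvPolynomial.map (algebraMap ℚ k) (coordPoly (b.coord i) f) =
          C ((N : k)⁻¹) * MvPolynomial.map (Int.castRingHom k) g' := by
        rw [← h2, ← h1, ← mul_assoc, ← C_mul]
        simp [hN]
      rw [h3]
      exact Ideal.mul_mem_left _ _ (Ideal.mem_map_of_mem _ hg')
    classical
    have hsum : f = ∑ i ∈ f.support.biUnion (fun μ => (b.repr (f.coeff μ)).support),
        C (b i) * MvPolynomial.map (algebraMap ℚ k) (coordPoly (b.coord i) f) := by
      ext μ
      rw [coeff_sum]
      simp only [coeff_C_mul, coeff_map, coeff_coordPoly, Module.Basis.coord_apply]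
      have h4 := b.linearCombination_repr (f.coeff μ)
      rw [Finsupp.linearCombination_apply, Finsupp.sum] at h4
      conv_lhs => rw [← h4]
      by_cases hμ : μ ∈ f.support
      · rw [← Finset.sum_subset (Finset.subset_biUnion_of_mem
          (fun μ => (b.repr (f.coeff μ)).support) hμ)]
        · refine Finset.sum_congr rfl fun i _ => ?_
          rw [Algebra.smul_def, mul_comm]
        · intro i _ hi
          rw [Finsupp.notMem_support_iff.mp hi]; simp
      · rw [notMem_support_iff.mp hμ]; simp
    rw [hsum]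
    exact Ideal.sum_mem _ fun i _ => Ideal.mul_mem_left _ _ (hmem i)

/-- The graph ideal generates a prime ideal over every field of characteristic zero. -/
theorem graphIdeal_isPrime (k : Type) [Field k] [CharZero k]
    (B : ∀ j, σ j → MvPolynomial τ ℤ) :
    ((graphIdeal B).map (MvPolynomial.map (Int.castRingHom k))).IsPrime := by
  rw [map_graphIdeal]
  exact RingHom.ker_isPrime _

open NefRed in
/-- Finite extensions of `k(X)` are function fields (helper85). -/
theorem isFunctionField_of_ratFunc (k K : Type) [Field k] [Field K] [Algebra k K]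
    [Algebra (RatFunc k) K] [IsScalarTower k (RatFunc k) K] [FiniteDimensional (RatFunc k) K] :
    IsFunctionField k K := by
  refine ⟨algebraMap (RatFunc k) K RatFunc.X, ?_, ?_⟩
  · rw [transcendental_algebraMap_iff (algebraMap (RatFunc k) K).injective]
    exact RatFunc.transcendental_X
  · set T := algebraMap (RatFunc k) K RatFunc.X with hT
    have hmem : ∀ r : RatFunc k, algebraMap (RatFunc k) K r ∈ IntermediateField.adjoin k {T} := by
      intro r
      have h1 : r ∈ IntermediateField.adjoin k {(RatFunc.X : RatFunc k)} := by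
        rw [RatFunc.adjoin_X]; trivial
      have h2 : (IntermediateField.adjoin k {(RatFunc.X : RatFunc k)}).map
          (IsScalarTower.toAlgHom k (RatFunc k) K) = IntermediateField.adjoin k {T} := by
        rw [IntermediateField.adjoin_map]
        simp [hT]
      rw [← h2]
      exact ⟨r, h1, rfl⟩
    let φ : RatFunc k →+* IntermediateField.adjoin k {T} :=
      (algebraMap (RatFunc k) K).codRestrict _ hmem
    let _ : Algebra (RatFunc k) (IntermediateField.adjoin k {T}) := φ.toAlgebra
    have : IsScalarTower (RatFunc k) (IntermediateField.adjoin k {T}) K :=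
      IsScalarTower.of_algebraMap_eq fun r => rfl
    exact Module.Finite.of_restrictScalars_finite (RatFunc k) _ K

end NefK
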