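import Mathlib
import Pool.Agent.Lib_helper36.Nef.Defs

/-!
# Nefness and canonical divisors of subvarieties of products of projective spaces: definitions

We work with closed subschemes of `∏_{j ∈ ι} ℙ^{σ j}` over `ℤ`, with homogeneous coordinates
`(x_{j,l})_{l ∈ σ j}` on the `j`-th factor, given by ideals `I` of `ℤ[x_{j,l}]` generated by
multihomogeneous polynomials.
-/

namespace NefK

open scoped WithZero
open NefRed

/-- A polynomial in the `x_{j,l}` is multihomogeneous if it is homogeneous in the variables
`(x_{j,l})_l` for every `j`. -/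
def MultiHomogeneous {R ι : Type} {σ : ι → Type} [CommSemiring R] [∀ j, Fintype (σ j)]
    (f : MvPolynomial ((j : ι) × σ j) R) : Prop :=
  ∃ d : ι → ℕ, ∀ m ∈ f.support, ∀ j, ∑ l, m ⟨j, l⟩ = d j

/-- The value of a polynomial at `x`. -/
noncomputable def evalAt {R K ι : Type} {σ : ι → Type} [CommSemiring R] [Field K] [Algebra R K]
    (x : ∀ j, σ j → K) : MvPolynomial ((j : ι) × σ j) R →ₐ[R] K :=
  MvPolynomial.aeval fun jl => x jl.1 jl.2

/-- `x` represents a `K`-valued point of the closed subscheme of `∏_{j ∈ ι} ℙ^{σ j}` defined by the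
ideal `I`: in each factor not all coordinates are zero, and all the elements of `I` vanish. -/
def IsPoint {ι : Type} {σ : ι → Type} (I : Ideal (MvPolynomial ((j : ι) × σ j) ℤ))
    {K : Type} [Field K] (x : ∀ j, σ j → K) : Prop :=
  (∀ j, ∃ l, x j l ≠ 0) ∧ ∀ f ∈ I, evalAt x f = 0

/-- The line bundle `𝒪(a)` on the closed subscheme of `∏_{j ∈ ι} ℙ^{σ j}` over the algebraically
closed field `k` defined by the ideal `I` is nef: for every function field `K/k` of one variable (of
a smooth projective curve `C`) and every `K`-valued point (morphism from `C`), the degree of the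
pull-back of `𝒪(a)` is nonnegative. -/
def IsNef {ι : Type} {σ : ι → Type} [Fintype ι] [∀ j, Fintype (σ j)] (k : Type) [Field k]
    (I : Ideal (MvPolynomial ((j : ι) × σ j) ℤ)) (a : ι → ℤ) : Prop :=
  ∀ (K : Type) [Field K] [Algebra k K], IsFunctionField k K →
    ∀ x : (∀ j, σ j → K), IsPoint I x → 0 ≤ ∑ j, a j * degO1 k (x j)

/-- The closed subscheme of `∏_{j ∈ ι} ℙ^{σ j}` over the field `k` defined by the ideal `I` is
integral, `F` is its function field and `x` its generic point: a multihomogeneous polynomial with
coefficients in `k` vanishes at `x` if and only if it belongs to the ideal generated by `I`, and the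
ratios of the coordinates of `x` generate the field `F`. -/
def IsGenericPoint {ι : Type} {σ : ι → Type} [∀ j, Fintype (σ j)] (k : Type) {F : Type} [Field k]
    [Field F] [Algebra k F] (I : Ideal (MvPolynomial ((j : ι) × σ j) ℤ)) (x : ∀ j, σ j → F) :
    Prop :=
  (∀ j, ∃ l, x j l ≠ 0) ∧
  (∀ f : MvPolynomial ((j : ι) × σ j) k, MultiHomogeneous f →
    (evalAt x f = 0 ↔ f ∈ I.map (MvPolynomial.map (Int.castRingHom k)))) ∧
  IntermediateField.adjoin k {z : F | ∃ j l l', z = x j l / x j l'} = ⊤

/-- The coordinate ring of the affine chart `x_{j, c j} ≠ 0` (for all `j`) of the variety with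
generic point `x`: the algebra generated by the ratios `x_{j,l} / x_{j, c j}`. -/
def chartRing {ι : Type} {σ : ι → Type} (k : Type) {F : Type} [Field k] [Field F] [Algebra k F]
    (x : ∀ j, σ j → F) (c : ∀ j, σ j) : Subalgebra k F :=
  Algebra.adjoin k {z : F | ∃ j l, z = x j l / x j (c j)}

/-- The variety with generic point `x` is normal: the coordinate rings of its affine charts are
integrally closed in `F`. -/
def IsNormal {ι : Type} {σ : ι → Type} (k : Type) {F : Type} [Field k] [Field F] [Algebra k F]
    (x : ∀ j, σ j → F) : Prop :=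
  ∀ c : (∀ j, σ j), (∀ j, x j (c j) ≠ 0) → ∀ z : F, IsIntegral (chartRing k x c) z →
    z ∈ chartRing k x c

/-- Elements of `F` with algebraically independent residues at `v`: every nonzero polynomial takes
a unit value. -/
def ResIndep {k F : Type} [Field k] [Field F] [Algebra k F] {τ : Type} (v : Valuation F ℤᵐ⁰)
    (r : τ → F) : Prop :=
  ∀ P : MvPolynomial τ k, P ≠ 0 → v (MvPolynomial.aeval r P) = 1

/-- The discrete valuation `v` of `F/k` is a prime divisor of the normalization `X` of the
`d`-dimensional projective variety `Y` with generic point `x` (of `Y` itself, if `Y` is normal): the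
residue field of the centre of `v` on `Y`, which is generated by the residues of the ratios
`x_{j,l} / x_{j,l'}` with `|x_{j,l'}|_v` maximal, has transcendence degree `d - 1` over `k`, i.e.
`d - 1` of these ratios have algebraically independent residues. -/
def IsPrimeDivisor {ι : Type} {σ : ι → Type} [∀ j, Fintype (σ j)] {k F : Type} [Field k] [Field F]
    [Algebra k F] (d : ℕ) (x : ∀ j, σ j → F) (v : Place k F) : Prop :=
  ∃ r : Fin (d - 1) → F,
    (∀ i, ∃ j l l', v.val (x j l') = vmax v.val (x j) ∧ r i = x j l / x j l') ∧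
    ResIndep (k := k) v.val r

end NefK

namespace NefC

open scoped WithZero
open NefRed NefK

/-- The module of Kähler differentials of `F` over `k`. -/
def Diff (k F : Type) [Field k] [Field F] [Algebra k F] : Type := Ω[F⁄k]

noncomputable instance instDiffAdd (k F : Type) [Field k] [Field F] [Algebra k F] :
    AddCommGroup (Diff k F) := (inferInstance : AddCommGroup (Ω[F⁄k]))

noncomputable instance instDiffModule (k F : Type) [Field k] [Field F] [Algebra k F] :
    Module F (Diff k F) := (inferInstance : Module F (Ω[F⁄k]))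

/-- The `d`-th exterior power of a module. -/
def ExtPow (R M : Type) [CommRing R] [AddCommGroup M] [Module R M] (d : ℕ) : Type := ⋀[R]^d M

noncomputable instance instExtAdd (R M : Type) [CommRing R] [AddCommGroup M] [Module R M] (d : ℕ) :
    AddCommGroup (ExtPow R M d) := (⋀[R]^d M).addCommGroup

noncomputable instance instExtModule (R M : Type) [CommRing R] [AddCommGroup M] [Module R M]
    (d : ℕ) : Module R (ExtPow R M d) := (⋀[R]^d M).module

/-- The alternating map `m ↦ m_1 ∧ ⋯ ∧ m_d`. -/
noncomputable def wedgeMap (R M : Type) [CommRing R] [AddCommGroup M] [Module R M] (d : ℕ) :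
    M [⋀^Fin d]→ₗ[R] ExtPow R M d := exteriorPower.ιMulti R d

/-- The form `dz_1 ∧ ⋯ ∧ dz_d` in the `d`-th exterior power of the Kähler differentials. -/
noncomputable def wedge (k : Type) {F : Type} [Field k] [Field F] [Algebra k F] {d : ℕ}
    (z : Fin d → F) : ExtPow F (Diff k F) d :=
  wedgeMap F (Diff k F) d fun i => KaehlerDifferential.D k F (z i)

/-- The canonical module at the discrete valuation `v`, with valuation ring `𝒪`: the `𝒪`-module of
rational `d`-forms generated by the `dz_1 ∧ ⋯ ∧ dz_d` with `z_1, …, z_d ∈ 𝒪`, i.e. the image of the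
`d`-th exterior power of `Ω_{𝒪/k}`. -/
noncomputable def canonicalModule (k : Type) {F : Type} [Field k] [Field F] [Algebra k F] (d : ℕ)
    (v : Valuation F ℤᵐ⁰) : AddSubgroup (ExtPow F (Diff k F) d) :=
  AddSubgroup.closure
    {η | ∃ (f : F) (z : Fin d → F), v f ≤ 1 ∧ (∀ i, v (z i) ≤ 1) ∧ η = f • wedge k z}

/-- The pull-back of `𝒪(a)` to the normalization `X` of the `d`-dimensional projective variety `Y`
with generic point `x` (`𝒪(a)` itself, if `Y` is normal) is the canonical line bundle of `X`, i.e.
`K_X ∼ 𝒪(a)`: there is a nonzero rational `d`-form `ω` such that at every prime divisor `v` of `X`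
the isomorphism `f ↦ f ω` maps the stalk `{f | |f|_v ≤ ∏_j (max_l |x_{j,l}|_v)^{a_j}}` of `𝒪(a)` onto
the canonical module. -/
def IsCanonical {ι : Type} {σ : ι → Type} [Fintype ι] [∀ j, Fintype (σ j)] (k : Type) {F : Type}
    [Field k] [Field F] [Algebra k F] (d : ℕ) (x : ∀ j, σ j → F) (a : ι → ℤ) : Prop :=
  (∃ t : Fin d → F, IsTranscendenceBasis k t) ∧
  ∃ ω : ExtPow F (Diff k F) d, ω ≠ 0 ∧ ∀ v : Place k F, IsPrimeDivisor d x v →
    ∀ η : ExtPow F (Diff k F) d, η ∈ canonicalModule k d v.val ↔
      ∃ f : F, v.val f ≤ ∏ j, (vmax v.val (x j)) ^ (a j) ∧ η = f • ω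

end NefC
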