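import Pool.Agent.Lib_helper87.NefK.YChart

/-!
# Charts of the blow-up of `ℙ⁴`
-/

namespace NefK

open Nef87 NefRed Finset
open scoped WithZero

/-- The index of the coordinate in position `i` of the chart `b_{i0} ≠ 0`. -/
def idx (i0 : Fin 5) (i : Fin 4) : Fin 5 := if i.succ = i0 then 0 else i.succ

lemma idx_ne : ∀ (i0 : Fin 5) (i : Fin 4), idx i0 i ≠ i0 := by decide

lemma exists_idx : ∀ (i0 l : Fin 5), l ≠ i0 → ∃ i, idx i0 i = l := by decide

lemma idx_injective : ∀ (i0 : Fin 5) (i j : Fin 4), idx i0 i = idx i0 j → i = j := by decide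

/-- The inclusion of the base positions. -/
def c46 : Fin 4 → Fin 6 := ![0, 1, 2, 3]

lemma card_erase_c46 : ∀ j : Fin 4, (({0, 1, 2, 3} : Finset (Fin 6)).erase (c46 j)).card = 3 := by
  decide

lemma mem_erase_c46 : ∀ (j : Fin 4) (i : Fin 6), (i ∈ ({0, 1, 2, 3} : Finset (Fin 6)).erase
    (c46 j)) ↔ (i = 0 ∧ j ≠ 0 ∨ i = 1 ∧ j ≠ 1 ∨ i = 2 ∧ j ≠ 2 ∨ i = 3 ∧ j ≠ 3) := by decide

/-- Tuples of six elements. -/
def tup {F : Type} (u : Fin 4 → F) (s w : F) : Fin 6 → F := ![u 0, u 1, u 2, u 3, s, w]

section

variable {k F : Type} [Field k] [Field F] [Algebra k F]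

/-- Translation of the coordinates by constants. -/
theorem comp_sub_consts (v : Place k F) {d : ℕ} (z : Fin d → F) (ε : Fin d → k) :
    Comp v 1 z (fun i => z i - algebraMap k F (ε i)) := by
  refine ⟨?_, 1, map_one _, ?_⟩
  · apply adjoin_eq_of_mem
    · intro i
      exact sub_mem (mem_adjoin_range z i) (IntermediateField.algebraMap_mem _ _)
    · intro i
      have h := add_mem (mem_adjoin_range (k := k) (fun i => z i - algebraMap k F (ε i)) i)
        (IntermediateField.algebraMap_mem
          (IntermediateField.adjoin k (Set.range fun i => z i - algebraMap k F (ε i))) (ε i))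
      simpa using h
  · rw [one_smul]
    unfold wedge
    congr 1
    funext i
    rw [map_sub, Derivation.map_algebraMap, sub_zero]

/-- Scaling three of the four base coordinates. -/
theorem comp_scale (v : Place k F) (ρ : Fin 4 → F) (j : Fin 4) (μ : F) (hμ : μ ≠ 0)
    (hmem : ∀ E : IntermediateField k F, ρ j ∈ E → μ ∈ E) (s w : F) :
    Comp v (v.val μ ^ 3) (tup ρ s w) (tup (fun i => if i = j then ρ i else μ * ρ i) s w) := by
  classical
  let jj : Fin 6 := c46 j
  let A : Finset (Fin 6) := ({0, 1, 2, 3} : Finset (Fin 6)).erase jj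
  have hcard : A.card = 3 := card_erase_c46 j
  have hjj : jj ∉ A := Finset.notMem_erase _ _
  have hval : tup ρ s w jj = ρ j := by
    fin_cases j <;> rfl
  have h := comp_smul v (tup ρ s w) A μ hμ (hmem _ (by
    apply IntermediateField.subset_adjoin
    exact ⟨jj, by simpa using hjj, hval⟩))
  rw [hcard] at h
  have e : (fun i => if i ∈ A then μ * tup ρ s w i else tup ρ s w i) =
      tup (fun i => if i = j then ρ i else μ * ρ i) s w := by
    funext i
    simp only [A, jj, mem_erase_c46 j i]
    fin_cases i
    · by_cases hj : j = 0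
      · simp [tup, hj]
      · simp [tup, hj, Ne.symm hj]
    · by_cases hj : j = 1
      · simp [tup, hj]
      · simp [tup, hj, Ne.symm hj]
    · by_cases hj : j = 2
      · simp [tup, hj]
      · simp [tup, hj, Ne.symm hj]
    · by_cases hj : j = 3
      · simp [tup, hj]
      · simp [tup, hj, Ne.symm hj]
    · simp [tup]
    · simp [tup]
  rw [e] at h
  exact h

lemma update_tup (ρ : Fin 4 → F) (s w : F) (j : Fin 4) (x : F) :
    Function.update (tup ρ s w) (c46 j) x = tup (Function.update ρ j x) s w := by
  funext i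
  fin_cases j <;> fin_cases i <;> simp [tup, Function.update, c46]

end

section

variable {k : Type} [Field k]

/-- The base coordinates. -/
noncomputable def b4 (k : Type) [Field k] : Fin 4 → FY k := fun i => bF k i.succ

/-- The chart `b_{i0} ≠ 0` of `ℙ⁴`. -/
theorem comp_base (v : Place k (FY k)) (i0 : Fin 5) (s w : FY k) :
    Comp v (v.val (bF k i0) ^ (-5 : ℤ)) (tup (b4 k) s w)
      (tup (fun i => bF k (idx i0 i) / bF k i0) s w) := by
  refine Fin.cases ?_ (fun j => ?_) i0
  · have h := Comp.refl v (tup (b4 k) s w)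
    have e1 : v.val (bF k 0) ^ (-5 : ℤ) = 1 := by rw [bF_zero, map_one, one_zpow]
    have e2 : (fun i => bF k (idx 0 i) / bF k 0) = b4 k := by
      funext i
      rw [bF_zero, div_one]
      have : idx 0 i = i.succ := by
        unfold idx
        rw [if_neg (Fin.succ_ne_zero i)]
      rw [this]; rfl
    rw [e1, e2]
    exact h
  · set x := bF k j.succ with hx
    have hx0 : x ≠ 0 := bF_ne_zero _
    have hvx : v.val x ≠ 0 := (Valuation.ne_zero_iff _).mpr hx0
    have hval : tup (b4 k) s w (c46 j) = x := by
      fin_cases j <;> rfl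
    have h1 := comp_inv v (tup (b4 k) s w) (c46 j) (by rw [hval]; exact hx0)
    rw [hval, update_tup] at h1
    have h2 := comp_scale v (Function.update (b4 k) j x⁻¹) j x⁻¹ (inv_ne_zero hx0)
      (fun E hE => by rwa [Function.update_self] at hE) s w
    have h3 := h1.trans h2
    have e1 : v.val x ^ (-2 : ℤ) * v.val x⁻¹ ^ 3 = v.val x ^ (-5 : ℤ) := by
      rw [map_inv₀, ← zpow_natCast, inv_zpow, ← zpow_neg, ← zpow_add₀ hvx]
      norm_num
    have e2 : (fun i => if i = j then Function.update (b4 k) j x⁻¹ i
        else x⁻¹ * Function.update (b4 k) j x⁻¹ i) = fun i => bF k (idx j.succ i) / x := by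
      funext i
      by_cases hij : i = j
      · subst hij
        rw [if_pos rfl, Function.update_self]
        have : idx i.succ i = 0 := by
          unfold idx
          rw [if_pos rfl]
        rw [this, bF_zero, one_div]
      · rw [if_neg hij, Function.update_of_ne hij]
        have : idx j.succ i = i.succ := by
          unfold idx
          rw [if_neg (fun h => hij (Fin.succ_injective _ h))]
        rw [this, div_eq_inv_mul]
        rfl
    rw [e1, e2] at h3
    exact h3

end

end NefK
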