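import Pool.Agent.Lib_helper87.NefK.YBase

/-!
# Every valuation has a base chart
-/

namespace NefK

open Nef87 NefRed Finset
open scoped WithZero

section

variable {k : Type} [Field k]

/-- Coordinates of the blow-up of `ℙ⁴` adapted to a valuation. -/
structure BaseChart (v : Place k (FY k)) (u : Fin 4 → FY k) (c : ℤᵐ⁰) (Gb : FY k)
    (eb : Fin 5 → FY k) (GS : OddSet → FY k) (eS : OddSet → Fin 5 → FY k) : Prop where
  hu : ∀ i, v.val (u i) ≤ 1
  comp : ∀ s w, Comp v c (tup (b4 k) s w) (tup u s w)
  nb : NormBlock v u (bF k) Gb eb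
  nS : ∀ S, NormBlock v u (projS S (bF k)) (GS S) (eS S)
  hGb : Gb ∈ IntermediateField.adjoin k (Set.range (b4 k))
  hGS : ∀ S, GS S ∈ IntermediateField.adjoin k (Set.range (b4 k))
  hc : c * ∏ S, v.val (GS S) ^ 3 = v.val Gb ^ 43

lemma bF_mem (i : Fin 5) : bF k i ∈ IntermediateField.adjoin k (Set.range (b4 k)) := by
  refine Fin.cases ?_ (fun i => ?_) i
  · rw [bF_zero]; exact one_mem _
  · exact IntermediateField.subset_adjoin _ _ ⟨i, rfl⟩

lemma projS_bF_mem (S : OddSet) (i : Fin 5) :
    projS S (bF k) i ∈ IntermediateField.adjoin k (Set.range (b4 k)) := by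
  unfold projS
  split_ifs
  · exact sub_mem (bF_mem _) (bF_mem _)
  · exact bF_mem _

lemma projS_div {K : Type} [Field K] (S : OddSet) (b : Fin 5 → K) (c : K) (l : Fin 5) :
    projS S b l / c = projS S (fun i => b i / c) l := by
  unfold projS
  split_ifs
  · rw [sub_div]
  · rfl

lemma ResGen.projS {F : Type} [Field F] [Algebra k F] {v : Place k F} {n : ℕ} {z : Fin n → F}
    (hz : ∀ i, v.val (z i) ≤ 1) (S : OddSet) {b : Fin 5 → F} (h : ∀ i, ResGen v z (b i))
    (l : Fin 5) : ResGen v z (projS S b l) := by
  unfold Nef87.projS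
  split_ifs
  · exact (h _).sub hz (h _)
  · exact h _

theorem exists_baseChart (v : Place k (FY k)) :
    ∃ u c Gb eb GS eS, BaseChart v u c Gb eb GS eS := by
  classical
  by_cases hP : ∀ S : OddSet, vmax v.val (projS S (bF k)) = vmax v.val (bF k)
  · -- away from the exceptional divisors
    obtain ⟨i0, hi0⟩ := vmax_attained v.val (bF k) 0
    have hb0 : bF k i0 ≠ 0 := bF_ne_zero i0
    have hvb0 : v.val (bF k i0) ≠ 0 := (Valuation.ne_zero_iff _).mpr hb0
    have hle : ∀ l, v.val (bF k l / bF k i0) ≤ 1 := by
      intro l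
      rw [map_div₀]
      refine div_le_one_of_le₀ ?_ zero_le
      rw [← hi0]
      exact le_vmax v.val _ l
    have hu : ∀ i, v.val (bF k (idx i0 i) / bF k i0) ≤ 1 := fun i => hle _
    have heb : ∀ l, ResGen v (fun i => bF k (idx i0 i) / bF k i0) (bF k l / bF k i0) := by
      intro l
      by_cases hl : l = i0
      · rw [hl, div_self hb0]; exact ResGen.one
      · obtain ⟨i, hi⟩ := exists_idx i0 l hl
        rw [← hi]
        exact ResGen.var (z := fun i => bF k (idx i0 i) / bF k i0) i
    refine ⟨fun i => bF k (idx i0 i) / bF k i0, v.val (bF k i0) ^ (-5 : ℤ), bF k i0,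
      fun l => bF k l / bF k i0, fun _ => bF k i0, fun S l => projS S (bF k) l / bF k i0, hu,
      comp_base v i0, ?_, ?_, bF_mem _, fun _ => bF_mem _, ?_⟩
    · exact ⟨hb0, fun l => (mul_div_cancel₀ _ hb0).symm, heb,
        ⟨i0, by rw [div_self hb0, map_one]⟩⟩
    · intro S
      refine ⟨hb0, fun l => (mul_div_cancel₀ _ hb0).symm, fun l => ?_, ?_⟩
      · rw [projS_div]
        exact ResGen.projS hu S heb l
      · obtain ⟨l, hl⟩ := vmax_attained v.val (projS S (bF k)) 0
        refine ⟨l, ?_⟩
        rw [map_div₀, ← hl, hP S, hi0, div_self hvb0]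
    · rw [Finset.prod_const, Finset.card_univ, card_oddSet, ← pow_mul, ← zpow_natCast,
        ← zpow_natCast, ← zpow_add₀ hvb0]
      norm_num
  · -- on an exceptional divisor
    push Not at hP
    obtain ⟨S0, hS0⟩ := hP
    have hlt : vmax v.val (projS S0 (bF k)) < vmax v.val (bF k) :=
      lt_of_le_of_ne (projS_le S0 (bF k)) hS0
    set m := S0.1.min' S0.nonempty with hm
    have hmS : m ∈ S0.1 := S0.1.min'_mem S0.nonempty
    have hVm : v.val (bF k m) = vmax v.val (bF k) := by
      obtain ⟨i, hi⟩ := vmax_attained v.val (bF k) 0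
      by_cases hiS : i ∈ S0.1
      · have h1 := le_projS (v := v.val) S0 (bF k) i
        rw [projS, if_pos hiS] at h1
        have h2 : v.val (bF k i - bF k m) < v.val (bF k i) := by
          rw [← hi]; exact lt_of_le_of_lt h1 hlt
        have h3 : v.val (bF k m) = v.val (bF k i) := by
          have e : bF k m = bF k i - (bF k i - bF k m) := by ring
          rw [e]
          exact Valuation.map_sub_eq_of_lt_left _ h2
        rw [h3, hi]
      · have h1 := le_projS (v := v.val) S0 (bF k) i
        rw [projS, if_neg hiS, ← hi] at h1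
        exact absurd hlt (not_lt.mpr h1)
    have hb0 : bF k m ≠ 0 := bF_ne_zero m
    have hvb0 : v.val (bF k m) ≠ 0 := (Valuation.ne_zero_iff _).mpr hb0
    have hle : ∀ l, v.val (bF k l / bF k m) ≤ 1 := by
      intro l
      rw [map_div₀]
      refine div_le_one_of_le₀ ?_ zero_le
      rw [hVm]
      exact le_vmax v.val _ l
    -- the index of the largest coordinate of the projection
    obtain ⟨l0, hl0⟩ := vmax_attained v.val (projS S0 (bF k)) 0
    have hproj0 : projS S0 (bF k) l0 ≠ 0 := by
      intro h
      rw [h, map_zero] at hl0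
      exact vmax_ne_zero v.val _ (exists_projS_bF S0) hl0
    have hl0m : l0 ≠ m := by
      intro h
      apply hproj0
      rw [h, projS, if_pos hmS, sub_self]
    obtain ⟨j0, hj0⟩ := exists_idx m l0 hl0m
    -- the translated coordinates
    let ρ : Fin 4 → FY k := fun i => projS S0 (bF k) (idx m i) / bF k m
    have hρj0 : ρ j0 = projS S0 (bF k) l0 / bF k m := by simp only [ρ, hj0]
    have hρ0 : ρ j0 ≠ 0 := by rw [hρj0]; exact div_ne_zero hproj0 hb0
    have hvρ0 : v.val (ρ j0) ≠ 0 := (Valuation.ne_zero_iff _).mpr hρ0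
    have hρlt : v.val (ρ j0) < 1 := by
      rw [hρj0, map_div₀, ← hl0, hVm]
      exact (div_lt_one₀ (zero_lt_iff.mpr (by rw [← hVm]; exact hvb0))).mpr hlt
    have hρle : ∀ l, v.val (projS S0 (bF k) l / bF k m) ≤ v.val (ρ j0) := by
      intro l
      rw [hρj0, map_div₀, map_div₀, ← hl0]
      exact div_le_div_of_nonneg_right (le_vmax v.val _ l) zero_le
    let u : Fin 4 → FY k := fun i => if i = j0 then ρ i else (ρ j0)⁻¹ * ρ i
    have hu : ∀ i, v.val (u i) ≤ 1 := by
      intro i
      simp only [u]
      split_ifs with h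
      · rw [h]; exact hρlt.le
      · rw [map_mul, map_inv₀]
        calc (v.val (ρ j0))⁻¹ * v.val (ρ i) ≤ (v.val (ρ j0))⁻¹ * v.val (ρ j0) :=
              mul_le_mul' le_rfl (hρle _)
          _ = 1 := inv_mul_cancel₀ hvρ0
    have hproj_eq : ∀ l, bF k l / bF k m =
        projS S0 (bF k) l / bF k m + (if l ∈ S0.1 then 1 else 0) := by
      intro l
      unfold projS
      split_ifs with h
      · rw [sub_div, div_self hb0, sub_add_cancel]
      · rw [add_zero]
    have heb : ∀ l, ResGen v u (bF k l / bF k m) := by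
      intro l
      rw [hproj_eq]
      refine ResGen.add hu (ResGen.of_lt (lt_of_le_of_lt (hρle l) hρlt)) ?_
      split_ifs
      · exact ResGen.one
      · exact ResGen.zero
    have hcomp : ∀ s w, Comp v (v.val (bF k m) ^ (-5 : ℤ) * 1 * v.val (ρ j0)⁻¹ ^ 3)
        (tup (b4 k) s w) (tup u s w) := by
      intro s w
      have h1 := comp_base v m s w
      have h2 := comp_sub_consts v (tup (fun i => bF k (idx m i) / bF k m) s w)
        (fun i : Fin 6 => if (∃ j : Fin 4, c46 j = i ∧ idx m j ∈ S0.1) then (1 : k) else 0)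
      have e2 : (fun i => tup (fun i => bF k (idx m i) / bF k m) s w i -
          algebraMap k (FY k) (if (∃ j : Fin 4, c46 j = i ∧ idx m j ∈ S0.1) then (1 : k) else 0)) =
          tup ρ s w := by
        funext i
        have hex : ∀ j : Fin 4, (∃ j' : Fin 4, c46 j' = c46 j ∧ idx m j' ∈ S0.1) ↔
            idx m j ∈ S0.1 := by
          intro j
          constructor
          · rintro ⟨j', hj', h⟩
            have hinj : ∀ a b : Fin 4, c46 a = c46 b → a = b := by decide
            rwa [hinj _ _ hj'] at h
          · intro h; exact ⟨j, rfl, h⟩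
        have hrho : ∀ j : Fin 4, bF k (idx m j) / bF k m -
            algebraMap k (FY k) (if (∃ j' : Fin 4, c46 j' = c46 j ∧ idx m j' ∈ S0.1)
              then (1 : k) else 0) = ρ j := by
          intro j
          rw [hproj_eq (idx m j)]
          simp only [hex j, ρ]
          split_ifs <;> simp
        have hno : ∀ i : Fin 6, i = 4 ∨ i = 5 → ¬ ∃ j : Fin 4, c46 j = i ∧ idx m j ∈ S0.1 := by
          rintro i hi ⟨j, hj, _⟩
          have : ∀ j : Fin 4, c46 j ≠ 4 ∧ c46 j ≠ 5 := by decide
          rcases hi with rfl | rfl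
          · exact (this j).1 hj
          · exact (this j).2 hj
        fin_cases i
        · exact hrho 0
        · exact hrho 1
        · exact hrho 2
        · exact hrho 3
        · have := hno 4 (Or.inl rfl)
          simp only [Fin.reduceFinMk]
          rw [if_neg this, map_zero, sub_zero]; rfl
        · have := hno 5 (Or.inr rfl)
          simp only [Fin.reduceFinMk]
          rw [if_neg this, map_zero, sub_zero]; rfl
      rw [e2] at h2
      have h3 := comp_scale v ρ j0 (ρ j0)⁻¹ (inv_ne_zero hρ0) (fun E hE => inv_mem hE) s w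
      exact (h1.trans h2).trans h3
    refine ⟨u, _, bF k m, fun l => bF k l / bF k m,
      fun S => if S = S0 then projS S0 (bF k) l0 else bF k m,
      fun S l => if S = S0 then projS S0 (bF k) l / projS S0 (bF k) l0
        else projS S (bF k) l / bF k m, hu, hcomp, ?_, ?_, bF_mem _, ?_, ?_⟩
    · exact ⟨hb0, fun l => (mul_div_cancel₀ _ hb0).symm, heb,
        ⟨m, by rw [div_self hb0, map_one]⟩⟩
    · intro S
      by_cases hSS : S = S0
      · subst hSS
        simp only [if_true]
        refine ⟨hproj0, fun l => (mul_div_cancel₀ _ hproj0).symm, fun l => ?_,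
          ⟨l0, by rw [div_self hproj0, map_one]⟩⟩
        by_cases hlm : l = m
        · have h0 : projS S (bF k) l = 0 := by
            rw [hlm, projS, if_pos hmS, sub_self]
          rw [h0, zero_div]
          exact ResGen.zero
        · obtain ⟨i, hi⟩ := exists_idx m l hlm
          by_cases hij : i = j0
          · have : l = l0 := by rw [← hi, hij, hj0]
            rw [this, div_self hproj0]
            exact ResGen.one
          · have h1 : projS S (bF k) l / projS S (bF k) l0 = u i := by
              simp only [u, if_neg hij]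
              rw [hρj0]
              simp only [ρ, hi]
              field_simp
            rw [h1]
            exact ResGen.var i
      · simp only [if_neg hSS]
        refine ⟨hb0, fun l => (mul_div_cancel₀ _ hb0).symm, fun l => ?_, ?_⟩
        · rw [projS_div]
          exact ResGen.projS hu S heb l
        · obtain ⟨l, hl⟩ := vmax_attained v.val (projS S (bF k)) 0
          refine ⟨l, ?_⟩
          have hV : vmax v.val (projS S (bF k)) = vmax v.val (bF k) := by
            by_contra hne
            exact hSS (projS_unique (bF k) S S0 (lt_of_le_of_ne (projS_le S (bF k)) hne) hlt)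
          rw [map_div₀, ← hl, hV, ← hVm, div_self hvb0]
    · intro S
      split_ifs
      · exact projS_bF_mem _ _
      · exact bF_mem _
    · have h1 : ∏ S : OddSet, v.val (if S = S0 then projS S0 (bF k) l0 else bF k m) ^ 3 =
          v.val (projS S0 (bF k) l0) ^ 3 * (v.val (bF k m) ^ 3) ^ 15 := by
        rw [← Finset.mul_prod_erase Finset.univ _ (Finset.mem_univ S0)]
        congr 1
        · rw [if_pos rfl]
        · rw [Finset.prod_congr rfl (g := fun _ => v.val (bF k m) ^ 3), Finset.prod_const,
            Finset.card_erase_of_mem (Finset.mem_univ _), Finset.card_univ, card_oddSet]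
          intro S hS
          rw [if_neg (Finset.ne_of_mem_erase hS)]
      rw [h1]
      have h2 : v.val (projS S0 (bF k) l0) = v.val (ρ j0) * v.val (bF k m) := by
        rw [hρj0, map_div₀, div_mul_cancel₀ _ hvb0]
      rw [h2, map_inv₀, mul_one]
      have h3 : v.val (bF k m) ^ (-5 : ℤ) * (v.val (ρ j0))⁻¹ ^ 3 *
          ((v.val (ρ j0) * v.val (bF k m)) ^ 3 * (v.val (bF k m) ^ 3) ^ 15) =
          ((v.val (ρ j0))⁻¹ * v.val (ρ j0)) ^ 3 *
            (v.val (bF k m) ^ (-5 : ℤ) * v.val (bF k m) ^ (48 : ℤ)) := by
        rw [mul_pow, mul_pow, ← pow_mul]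
        have : v.val (bF k m) ^ (48 : ℤ) = v.val (bF k m) ^ 3 * v.val (bF k m) ^ (3 * 15) := by
          rw [← pow_add, ← zpow_natCast]; rfl
        rw [this]
        generalize v.val (bF k m) ^ (-5 : ℤ) = A
        generalize v.val (bF k m) ^ 3 = B
        generalize v.val (bF k m) ^ (3 * 15) = C
        generalize (v.val (ρ j0))⁻¹ ^ 3 = D
        generalize v.val (ρ j0) ^ 3 = E
        ac_rfl
      rw [h3, inv_mul_cancel₀ hvρ0, one_pow, one_mul, ← zpow_add₀ hvb0, ← zpow_natCast]
      norm_num

end

end NefK
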