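import Pool.Agent.Lib_helper87.NefK.YClass

/-!
# The canonical class of `Y`
-/

namespace NefK

open Nef87 NefRed Finset
open scoped WithZero

section

variable {k : Type} [Field k]

lemma algebraicIndependent_XF : AlgebraicIndependent k (XF k) := by
  have h := (MvPolynomial.algebraicIndependent_X (Fin 6) k).map'
    (f := IsScalarTower.toAlgHom k (MvPolynomial (Fin 6) k) (FY k))
    (IsFractionRing.injective (MvPolynomial (Fin 6) k) (FY k))
  exact h

lemma adjoin_XF : IntermediateField.adjoin k (Set.range (XF k)) = ⊤ :=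
  eq_top_of_XF _ fun i => IntermediateField.subset_adjoin _ _ ⟨i, rfl⟩

lemma isTranscendenceBasis_XF : IsTranscendenceBasis k (XF k) := by
  have h := algebraicIndependent_XF (k := k)
  refine h.isTranscendenceBasis_iff_isAlgebraic.mpr ?_
  refine ⟨fun x => ?_⟩
  obtain ⟨a, b, hb, rfl⟩ := IsFractionRing.div_surjective (A := MvPolynomial (Fin 6) k) x
  have hmem : ∀ P : MvPolynomial (Fin 6) k, algebraMap (MvPolynomial (Fin 6) k) (FY k) P ∈
      Algebra.adjoin k (Set.range (XF k)) := by
    intro P
    induction P using MvPolynomial.induction_on with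
    | C a =>
      have : algebraMap (MvPolynomial (Fin 6) k) (FY k) (MvPolynomial.C a) = algebraMap k (FY k) a := by
        rw [← MvPolynomial.algebraMap_eq, ← IsScalarTower.algebraMap_apply]
      rw [this]
      exact Subalgebra.algebraMap_mem _ a
    | add p q hp hq => rw [map_add]; exact add_mem hp hq
    | mul_X p i hp => rw [map_mul]; exact mul_mem hp (Algebra.subset_adjoin ⟨i, rfl⟩)
  have h1 : ∀ P : MvPolynomial (Fin 6) k,
      IsAlgebraic (Algebra.adjoin k (Set.range (XF k))) (algebraMap (MvPolynomial (Fin 6) k) (FY k) P) :=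
    fun P => isAlgebraic_algebraMap
      (⟨algebraMap (MvPolynomial (Fin 6) k) (FY k) P, hmem P⟩ :
        Algebra.adjoin k (Set.range (XF k)))
  rw [div_eq_mul_inv]
  exact (h1 a).mul (h1 b).inv

lemma tup_XF : tup (b4 k) (XF k 4) (XF k 5) = XF k := by
  funext i
  fin_cases i <;> rfl

lemma prod_weightK (v : Place k (FY k)) :
    ∏ j, (vmax v.val (genY k j)) ^ (weightK j) =
      (∏ S : OddSet, vmax v.val (projS S (bF k))) * (vmax v.val (bF k) ^ 14)⁻¹ := by
  rw [Fintype.prod_option, Fintype.prod_option]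
  simp only [weightK, genY, pts, zpow_zero, one_mul, zpow_one]
  rw [mul_comm]
  congr 1
  rw [← zpow_natCast, ← zpow_neg]
  rfl

/-- **The canonical class of `Y`.** -/
theorem isCanonical_genY : IsCanonical k 6 (genY k) weightK := by
  classical
  refine ⟨⟨XF k, isTranscendenceBasis_XF⟩, ?_⟩
  set P : FY k := XF k 4 * (1 + XF k 4) with hP
  have hP0 : P ≠ 0 := mul_ne_zero (XF_ne_zero 4) one_add_s_ne_zero
  have hw0 := wedge_ne_zero (XF k) algebraicIndependent_XF adjoin_XF
  refine ⟨P⁻¹ • wedge k (XF k), ?_, ?_⟩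
  · exact smul_ne_zero (inv_ne_zero hP0) hw0
  · intro v hv η
    obtain ⟨z, c, hz, ⟨hadj, g, hg, hwedge⟩, hres, hc⟩ := exists_chart hv
    rw [tup_XF] at hadj hwedge
    rw [adjoin_XF] at hadj
    rw [mem_canonicalModule_of_divisor (genY k) v hv z hz hadj hres η]
    have hVb : vmax v.val (bF k) ≠ 0 := vmax_ne_zero v.val _ ⟨0, bF_ne_zero 0⟩
    have hVS : ∀ S : OddSet, vmax v.val (projS S (bF k)) ≠ 0 := fun S =>
      vmax_ne_zero v.val _ (exists_projS_bF S)
    have hprod : (∏ S : OddSet, vmax v.val (projS S (bF k))) ≠ 0 :=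
      Finset.prod_ne_zero_iff.mpr fun S _ => hVS S
    have hV14 : vmax v.val (bF k) ^ 14 ≠ 0 := pow_ne_zero _ hVb
    have hsize : ∏ j, (vmax v.val (genY k j)) ^ (weightK j) = c * v.val P := by
      rw [prod_weightK, ← hc, mul_assoc (c * v.val P), mul_inv_cancel₀ hV14, mul_one]
    have hc0 : c ≠ 0 := by
      intro h
      rw [h, zero_mul, zero_mul] at hc
      exact hprod hc.symm
    have hg0 : g ≠ 0 := by
      intro h
      rw [h, map_zero] at hg
      exact hc0 hg.symm
    have hvP : v.val P ≠ 0 := (Valuation.ne_zero_iff _).mpr hP0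
    rw [hsize, hwedge]
    constructor
    · rintro ⟨f, hf, rfl⟩
      refine ⟨f * g * P, ?_, ?_⟩
      · rw [map_mul, map_mul, hg, mul_assoc]
        exact mul_le_of_le_one_left' hf
      · rw [smul_smul, smul_smul, mul_assoc (f * g), mul_inv_cancel₀ hP0, mul_one]
    · rintro ⟨f, hf, rfl⟩
      refine ⟨f / (g * P), ?_, ?_⟩
      · rw [map_div₀, map_mul, hg]
        exact div_le_one_of_le₀ hf zero_le
      · rw [smul_smul, smul_smul]
        congr 1
        field_simp

end

end NefK
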