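import Pool.Agent.Lib_helper87.NefK.YGen

/-!
# The ideal of the generic point of `Y`
-/

namespace NefK

open Nef87 NefRed Finset

/-- Homogeneity. -/
lemma aeval_smul_multi {R K ι : Type} {σ : ι → Type} [CommSemiring R] [CommRing K] [Algebra R K]
    [Fintype ι] [∀ j, Fintype (σ j)] (f : MvPolynomial ((j : ι) × σ j) R) (d : ι → ℕ)
    (hf : ∀ m ∈ f.support, ∀ j, ∑ l, m ⟨j, l⟩ = d j) (c : ι → K) (x : ∀ j, σ j → K) :
    MvPolynomial.aeval (fun jl : (j : ι) × σ j => c jl.1 * x jl.1 jl.2) f =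
      (∏ j, c j ^ d j) * MvPolynomial.aeval (fun jl : (j : ι) × σ j => x jl.1 jl.2) f := by
  classical
  rw [MvPolynomial.aeval_def, MvPolynomial.aeval_def, MvPolynomial.eval₂_eq',
    MvPolynomial.eval₂_eq', Finset.mul_sum]
  refine Finset.sum_congr rfl fun m hm => ?_
  have h1 : ∏ i : (j : ι) × σ j, (c i.1 * x i.1 i.2) ^ m i =
      (∏ j, c j ^ d j) * ∏ i : (j : ι) × σ j, (x i.1 i.2) ^ m i := by
    simp_rw [mul_pow]
    rw [Finset.prod_mul_distrib]
    congr 1
    rw [Fintype.prod_sigma]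
    refine Finset.prod_congr rfl fun j _ => ?_
    change ∏ y, c j ^ m ⟨j, y⟩ = c j ^ d j
    rw [Finset.prod_pow_eq_pow_sum, hf m hm j]
  rw [h1]; ring

lemma qCoef_scale {K : Type} [Field K] (s w c : K) (t : Fin 4) :
    qCoef s w t * (c ^ qE t * (c ^ 16) ^ qF t) = c ^ 228 * qCoef s (w * c ^ 7) t := by
  fin_cases t
  · simp [qCoef, qE, qF]; ring
  · simp [qCoef, qE, qF]; ring
  · simp [qCoef, qE, qF]; ring
  · simp [qCoef, qE, qF]; ring

/-- degrees of the blocks in the coordinates of `ℙ⁴` -/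
def degB : Option (Option OddSet) → ℕ
  | none => 228
  | some _ => 1

lemma pts_scale {K : Type} [Field K] (b : Fin 5 → K) (s w c : K) (j : Option (Option OddSet))
    (l : Coord j) :
    pts (fun i => c * b i) s w j l = c ^ degB j * pts b s (w * c ^ 7) j l := by
  match j, l with
  | none, l =>
    have h1 : ∏ S : OddSet, projS S (fun i => c * b i) (l.2.2 S) =
        c ^ 16 * ∏ S : OddSet, projS S b (l.2.2 S) := by
      simp_rw [projS_smul]
      rw [Finset.prod_mul_distrib, Finset.prod_const, Finset.card_univ, card_oddSet]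
    have h2 := qCoef_scale s w c l.1
    simp only [pts, degB]
    rw [h1, mul_pow, mul_pow]
    calc qCoef s w l.1 * (c ^ qE l.1 * b l.2.1 ^ qE l.1) *
          ((c ^ 16) ^ qF l.1 * (∏ S : OddSet, projS S b (l.2.2 S)) ^ qF l.1)
        = (qCoef s w l.1 * (c ^ qE l.1 * (c ^ 16) ^ qF l.1)) *
          (b l.2.1 ^ qE l.1 * (∏ S : OddSet, projS S b (l.2.2 S)) ^ qF l.1) := by ring
      _ = _ := by rw [h2]; ring
  | some none, l => simp [pts, degB]
  | some (some S), l => simp [pts, degB, projS_smul]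

section

variable {k : Type} [Field k]

lemma evalAt_genY (f : MvPolynomial ((j : Option (Option OddSet)) × Coord j) k) :
    evalAt (genY k) f = algebraMap (MvPolynomial (Fin 6) k) (FY k)
      (MvPolynomial.aeval (fun jl : (j : Option (Option OddSet)) × Coord j =>
        pts (bPoly k) (MvPolynomial.X 4) (MvPolynomial.X 5) jl.1 jl.2) f) := by
  have h : ∀ jl : (j : Option (Option OddSet)) × Coord j, genY k jl.1 jl.2 =
      algebraMap (MvPolynomial (Fin 6) k) (FY k)
        (pts (bPoly k) (MvPolynomial.X 4) (MvPolynomial.X 5) jl.1 jl.2) := by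
    intro jl
    rw [map_pts]
    rfl
  unfold evalAt
  rw [← IsScalarTower.coe_toAlgHom' k (MvPolynomial (Fin 6) k) (FY k), ← AlgHom.comp_apply,
    MvPolynomial.comp_aeval]
  congr 1
  congr 1
  funext jl
  exact h jl

lemma evalAt_map {K ι : Type} {σ : ι → Type} [Field K] [Algebra k K] (x : ∀ j, σ j → K)
    (g : MvPolynomial ((j : ι) × σ j) ℤ) :
    evalAt (R := k) x (MvPolynomial.map (Int.castRingHom k) g) = evalAt (R := ℤ) x g := by
  unfold evalAt
  rw [MvPolynomial.aeval_def, MvPolynomial.aeval_def, MvPolynomial.eval₂_map]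
  congr 1
  exact RingHom.ext_int _ _

/-- Specialising the identity satisfied by the generic point. -/
lemma aeval_pts_eq_zero {E : Type} [Field E] [Algebra k E]
    (f : MvPolynomial ((j : Option (Option OddSet)) × Coord j) k) (hf : MultiHomogeneous f)
    (h1 : MvPolynomial.aeval (fun jl : (j : Option (Option OddSet)) × Coord j =>
        pts (bPoly k) (MvPolynomial.X 4) (MvPolynomial.X 5) jl.1 jl.2) f = 0)
    (B : Fin 5 → E) (hB0 : B 0 ≠ 0) (s w : E) (t : Option (Option OddSet) → E) :
    MvPolynomial.aeval (fun jl : (j : Option (Option OddSet)) × Coord j =>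
      t jl.1 * pts B s w jl.1 jl.2) f = 0 := by
  obtain ⟨d, hd⟩ := hf
  have h4 : (fun jl : (j : Option (Option OddSet)) × Coord j => t jl.1 * pts B s w jl.1 jl.2) =
      fun jl => (t jl.1 * B 0 ^ degB jl.1) *
        pts (fun i => B i / B 0) s (w * B 0 ^ 7) jl.1 jl.2 := by
    funext jl
    have h5 := pts_scale (fun i => B i / B 0) s w (B 0) jl.1 jl.2
    have h6 : (fun i => B 0 * (B i / B 0)) = B := funext fun i => mul_div_cancel₀ _ hB0
    rw [h6] at h5
    rw [h5, mul_assoc]
  rw [h4]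
  rw [aeval_smul_multi f d hd (fun j => t j * B 0 ^ degB j)
    (pts (fun i => B i / B 0) s (w * B 0 ^ 7))]
  -- specialise the polynomial identity
  let φ : MvPolynomial (Fin 6) k →ₐ[k] E :=
    MvPolynomial.aeval ![B 1 / B 0, B 2 / B 0, B 3 / B 0, B 4 / B 0, s, w * B 0 ^ 7]
  have h7 := congrArg φ h1
  rw [map_zero, ← AlgHom.comp_apply, MvPolynomial.comp_aeval] at h7
  have hb : (fun i => φ (bPoly k i)) = fun i => B i / B 0 := by
    funext i
    fin_cases i
    · simp [bPoly, hB0]
    · simp [bPoly, φ]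
    · simp [bPoly, φ]
    · simp [bPoly, φ]
    · simp [bPoly, φ]
  have hs : φ (MvPolynomial.X 4) = s := by simp [φ]
  have hw : φ (MvPolynomial.X 5) = w * B 0 ^ 7 := by simp [φ]
  have h8 : (fun jl : (j : Option (Option OddSet)) × Coord j =>
      φ (pts (bPoly k) (MvPolynomial.X 4) (MvPolynomial.X 5) jl.1 jl.2)) =
      fun jl => pts (fun i => B i / B 0) s (w * B 0 ^ 7) jl.1 jl.2 := by
    funext jl
    have h9 := map_pts φ.toRingHom (bPoly k) (MvPolynomial.X 4) (MvPolynomial.X 5) jl.1 jl.2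
    simp only [AlgHom.toRingHom_eq_coe, RingHom.coe_coe] at h9
    rw [h9, hb, hs, hw]
  have h10 : MvPolynomial.aeval (fun jl : (j : Option (Option OddSet)) × Coord j =>
      pts (fun i => B i / B 0) s (w * B 0 ^ 7) jl.1 jl.2) f = 0 := by
    rw [← h8]; exact h7
  rw [h10, mul_zero]

lemma phiK_blocksK_eq {E : Type} [Field E] [Algebra k E]
    (e : MvPolynomial ((Fin 5 ⊕ Fin 2) ⊕ Option (Option OddSet)) k →ₐ[k] E)
    (f : MvPolynomial ((j : Option (Option OddSet)) × Coord j) k) :
    e (phiK k blocksK f) = MvPolynomial.aeval (fun jl : (j : Option (Option OddSet)) × Coord j =>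
      e (MvPolynomial.X (Sum.inr jl.1)) * pts (fun i => e (MvPolynomial.X (Sum.inl (Sum.inl i))))
        (e (MvPolynomial.X (Sum.inl (Sum.inr 0)))) (e (MvPolynomial.X (Sum.inl (Sum.inr 1))))
          jl.1 jl.2) f := by
  unfold phiK
  rw [← AlgHom.comp_apply, MvPolynomial.comp_aeval]
  congr 1
  congr 1
  funext jl
  rw [map_mul, MvPolynomial.map_X, map_mul]
  congr 1
  have h3 := map_pts ((e.toRingHom.comp
    (MvPolynomial.map (Int.castRingHom k))).comp
    (MvPolynomial.rename (Sum.inl : Fin 5 ⊕ Fin 2 → (Fin 5 ⊕ Fin 2) ⊕ Option (Option OddSet)) :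
      MvPolynomial (Fin 5 ⊕ Fin 2) ℤ →ₐ[ℤ] _).toRingHom)
    (fun i => MvPolynomial.X (Sum.inl i)) (MvPolynomial.X (Sum.inr 0))
    (MvPolynomial.X (Sum.inr 1)) jl.1 jl.2
  simp only [RingHom.comp_apply, AlgHom.toRingHom_eq_coe, RingHom.coe_coe,
    MvPolynomial.rename_X, MvPolynomial.map_X] at h3
  exact h3

theorem genY_mem_iff [CharZero k] (f : MvPolynomial ((j : Option (Option OddSet)) × Coord j) k)
    (hf : MultiHomogeneous f) :
    evalAt (genY k) f = 0 ↔
      f ∈ (graphIdeal blocksK).map (MvPolynomial.map (Int.castRingHom k)) := by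
  classical
  constructor
  · intro h0
    rw [evalAt_genY] at h0
    have h1 : MvPolynomial.aeval (fun jl : (j : Option (Option OddSet)) × Coord j =>
        pts (bPoly k) (MvPolynomial.X 4) (MvPolynomial.X 5) jl.1 jl.2) f = 0 := by
      apply IsFractionRing.injective (MvPolynomial (Fin 6) k) (FY k)
      rw [h0, map_zero]
    rw [map_graphIdeal, RingHom.mem_ker]
    let R := MvPolynomial ((Fin 5 ⊕ Fin 2) ⊕ Option (Option OddSet)) k
    let E := FractionRing R
    let e : R →ₐ[k] E := IsScalarTower.toAlgHom k R E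
    have hinj : Function.Injective e := IsFractionRing.injective R E
    have hB0 : e (MvPolynomial.X (Sum.inl (Sum.inl 0))) ≠ 0 := by
      intro h
      rw [← map_zero e] at h
      exact MvPolynomial.X_ne_zero _ (hinj h)
    apply hinj
    rw [map_zero, phiK_blocksK_eq]
    exact aeval_pts_eq_zero f hf h1 (fun i => e (MvPolynomial.X (Sum.inl (Sum.inl i)))) hB0 _ _
      (fun j => e (MvPolynomial.X (Sum.inr j)))
  · intro hf
    have h1 : (graphIdeal blocksK).map (MvPolynomial.map (Int.castRingHom k)) ≤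
        RingHom.ker (evalAt (R := k) (genY k)).toRingHom := by
      rw [Ideal.map_le_iff_le_comap]
      intro g hg
      rw [Ideal.mem_comap, RingHom.mem_ker]
      have h2 := pts_mem (bF k) (XF k 4) (XF k 5) g hg
      exact (evalAt_map (genY k) g).trans h2
    exact h1 hf

theorem isGenericPoint_genY [CharZero k] : IsGenericPoint k (graphIdeal blocksK) (genY k) :=
  ⟨genY_ne, genY_mem_iff, adjoin_ratios⟩

end

end NefK
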