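import Pool.Agent.Lib_helper85.NefK.H
import Pool.Agent.Lib_helper36.NefK.W
import Pool.Agent.Lib_helper87.NefK.YGen2

/-!
# Normalised blocks
-/

namespace NefK

open Nef87 NefRed Finset
open scoped WithZero

section

variable {k F : Type} [Field k] [Field F] [Algebra k F] {v : Place k F} {n : ℕ} {z : Fin n → F}

lemma ResGen.one : ResGen v z 1 := by
  have := ResGen.const (v := v) (z := z) 1
  rwa [map_one] at this

lemma ResGen.zero : ResGen v z 0 := by
  have := ResGen.const (v := v) (z := z) 0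
  rwa [map_zero] at this

lemma ResGen.neg (hz : ∀ i, v.val (z i) ≤ 1) {r : F} (h : ResGen v z r) : ResGen v z (-r) := by
  have h1 := ResGen.mul hz (ResGen.const (v := v) (z := z) (-1)) h
  have e : algebraMap k F (-1) * r = -r := by simp
  rwa [e] at h1

lemma ResGen.sub (hz : ∀ i, v.val (z i) ≤ 1) {r s : F} (hr : ResGen v z r) (hs : ResGen v z s) :
    ResGen v z (r - s) := by
  rw [sub_eq_add_neg]
  exact hr.add hz (hs.neg hz)

lemma ResGen.pow (hz : ∀ i, v.val (z i) ≤ 1) {r : F} (h : ResGen v z r) (m : ℕ) :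
    ResGen v z (r ^ m) := by
  induction m with
  | zero => rw [pow_zero]; exact ResGen.one
  | succ m ih => rw [pow_succ]; exact ih.mul hz h

lemma ResGen.prod (hz : ∀ i, v.val (z i) ≤ 1) {ι : Type} (s : Finset ι) (f : ι → F)
    (h : ∀ i, ResGen v z (f i)) : ResGen v z (∏ i ∈ s, f i) := by
  classical
  induction s using Finset.induction_on with
  | empty => rw [Finset.prod_empty]; exact ResGen.one
  | insert a s ha ih => rw [Finset.prod_insert ha]; exact (h a).mul hz ih

lemma ResGen.aeval (hz : ∀ i, v.val (z i) ≤ 1) {m : ℕ} {u : Fin m → F}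
    (h : ∀ i, ResGen v z (u i)) (P : MvPolynomial (Fin m) k) :
    ResGen v z (MvPolynomial.aeval u P) := by
  induction P using MvPolynomial.induction_on with
  | C a => rw [MvPolynomial.aeval_C]; exact ResGen.const a
  | add p q hp hq => rw [map_add]; exact hp.add hz hq
  | mul_X p i hp => rw [map_mul, MvPolynomial.aeval_X]; exact hp.mul hz (h i)

lemma ResGen.div (hz : ∀ i, v.val (z i) ≤ 1) {r s : F} (hr : ResGen v z r) (hs : ResGen v z s)
    (h1 : v.val s = 1) : ResGen v z (r / s) := by
  rw [div_eq_mul_inv]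
  exact hr.mul hz (hs.inv hz h1)

lemma ResGen.mono (hz : ∀ i, v.val (z i) ≤ 1) {m : ℕ} {u : Fin m → F}
    (h : ∀ i, ResGen v z (u i)) {r : F} (hr : ResGen v u r) : ResGen v z r := by
  obtain ⟨P, Q, hQ, hPQ⟩ := hr
  have hP1 := ResGen.aeval hz h P
  have hQ1 := ResGen.aeval hz h Q
  have hQ0 : MvPolynomial.aeval u Q ≠ 0 := by
    intro h0
    rw [h0, map_zero] at hQ
    exact zero_ne_one hQ
  have h2 := hP1.div hz hQ1 hQ
  have h3 : v.val (r - MvPolynomial.aeval u P / MvPolynomial.aeval u Q) < 1 := by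
    have e : r - MvPolynomial.aeval u P / MvPolynomial.aeval u Q =
        -(MvPolynomial.aeval u P - r * MvPolynomial.aeval u Q) / MvPolynomial.aeval u Q := by
      field_simp
      ring
    rw [e, map_div₀, hQ, div_one, Valuation.map_neg]
    exact hPQ
  have h4 := h2.add hz (ResGen.of_lt (z := z) h3)
  rwa [add_sub_cancel] at h4

/-- `x = G e` with `e` integral, residually generated by `z` and of maximal size one. -/
structure NormBlock (v : Place k F) {n : ℕ} (z : Fin n → F) {σ : Type} (x : σ → F) (G : F)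
    (e : σ → F) : Prop where
  ne : G ≠ 0
  eq : ∀ l, x l = G * e l
  gen : ∀ l, ResGen v z (e l)
  unit : ∃ l, v.val (e l) = 1

lemma NormBlock.vmax_eq {σ : Type} [Fintype σ] (hz : ∀ i, v.val (z i) ≤ 1) {x : σ → F} {G : F}
    {e : σ → F} (h : NormBlock v z x G e) : vmax v.val x = v.val G := by
  apply le_antisymm
  · refine Finset.sup_le fun l _ => ?_
    rw [h.eq, map_mul]
    exact mul_le_of_le_one_right' ((h.gen l).le_one hz)
  · obtain ⟨l, hl⟩ := h.unit
    have h1 := le_vmax v.val x l
    rw [h.eq, map_mul, hl, mul_one] at h1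
    exact h1

lemma NormBlock.ratio {σ : Type} [Fintype σ] (hz : ∀ i, v.val (z i) ≤ 1) {x : σ → F} {G : F}
    {e : σ → F} (h : NormBlock v z x G e) (l l' : σ) (hl' : v.val (x l') = vmax v.val x) :
    ResGen v z (x l / x l') := by
  have hG : v.val G ≠ 0 := (Valuation.ne_zero_iff _).mpr h.ne
  have h1 : v.val (e l') = 1 := by
    rw [h.vmax_eq hz, h.eq, map_mul] at hl'
    exact (mul_eq_left₀ hG).mp hl'
  rw [h.eq l, h.eq l', mul_div_mul_left _ _ h.ne]
  exact (h.gen l).div hz (h.gen l') h1

lemma NormBlock.mono {σ : Type} {x : σ → F} {G : F} {e : σ → F} {m : ℕ} {u : Fin m → F}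
    (hz : ∀ i, v.val (z i) ≤ 1) (hu : ∀ i, ResGen v z (u i)) (h : NormBlock v u x G e) :
    NormBlock v z x G e :=
  ⟨h.ne, h.eq, fun l => ResGen.mono hz hu (h.gen l), h.unit⟩

end

end NefK
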