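import Pool.Agent.Lib_helper87.NefK.YFib

/-!
# The prime divisors of `Y` and the canonical module
-/

namespace NefK

open Nef87 NefRed Finset
open scoped WithZero

section

variable {k : Type} [Field k]

/-- The normalised fibre coordinates. -/
def qn {F : Type} (c0 c1 wt Tt : F) : Fin 4 → F := ![c0, c1, wt, Tt]

/-- The entries of the last block in normalised form. -/
def eQ {F : Type} [Field F] (q : Fin 4 → F) (eb : Fin 5 → F) (eS : OddSet → Fin 5 → F) :
    Coord none → F :=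
  fun c => q c.1 * (eb c.2.1 ^ qE c.1 * (∏ S, eS S (c.2.2 S)) ^ qF c.1)

/-- The last block in normalised form. -/
lemma pts_none_eq {F : Type} [Field F] (b : Fin 5 → F) (s w : F) (Gb : F) (hGb : Gb ≠ 0)
    (eb : Fin 5 → F) (hb : ∀ l, b l = Gb * eb l) (GS : OddSet → F) (eS : OddSet → Fin 5 → F)
    (hS : ∀ S l, projS S b l = GS S * eS S l) (s' w' lam c0 c1 : F) (hs' : s' ≠ 0)
    (hs1' : 1 + s' ≠ 0)
    (h0 : s * (s * (1 + s)) = lam * (s' * (1 + s')) * c0)
    (h1 : s * (1 + s) = lam * (s' * (1 + s')) * c1)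
    (h2 : w * (s * (1 + s)) = lam * (s' * (1 + s')) * w') (h3 : w ^ 4 = lam * w' ^ 4)
    (c : Coord none) :
    pts b s w none c = (lam * (s' * (1 + s')) * Gb ^ 228) *
      eQ (qn c0 c1 ((∏ S, GS S) ^ 4 / Gb ^ 57 * w')
        (((∏ S, GS S) ^ 4 / Gb ^ 57 * w') ^ 4 / (s' * (1 + s')))) eb eS c := by
  obtain ⟨t, i, l⟩ := c
  have hprod : ∏ S, projS S b (l S) = (∏ S, GS S) * ∏ S, eS S (l S) := by
    rw [← Finset.prod_mul_distrib]
    exact Finset.prod_congr rfl fun S _ => hS S (l S)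
  simp only [pts, eQ]
  rw [hprod, hb i]
  generalize (∏ S, GS S) = R
  generalize (∏ S, eS S (l S)) = E
  fin_cases t
  · simp only [qCoef, qn, qE, qF, Fin.zero_eta, Matrix.cons_val_zero, pow_zero, mul_one]
    rw [h0, mul_pow]; ring
  · simp only [qCoef, qn, qE, qF, Fin.mk_one, Matrix.cons_val_one, Matrix.cons_val_zero, pow_zero,
      mul_one]
    rw [h1, mul_pow]; ring
  · simp only [qCoef, qn, qE, qF, Fin.reduceFinMk, Matrix.cons_val]
    rw [h2]
    have e : Gb ^ 228 = Gb ^ 171 * Gb ^ 57 := by rw [← pow_add]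
    rw [e]
    field_simp
  · simp only [qCoef, qn, qE, qF, Fin.reduceFinMk, Matrix.cons_val, pow_zero, mul_one, one_mul]
    rw [h3]
    have e : Gb ^ 228 = (Gb ^ 57) ^ 4 := by rw [← pow_mul]
    rw [e]
    field_simp

variable {v : Place k (FY k)}

/-- All the blocks are normalised by `z` once the fibre coordinates are. -/
lemma hres_of {n : ℕ} {z : Fin n → FY k} (hz : ∀ i, v.val (z i) ≤ 1) {Gb : FY k}
    {eb : Fin 5 → FY k} {GS : OddSet → FY k} {eS : OddSet → Fin 5 → FY k}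
    (nb : NormBlock v z (bF k) Gb eb) (nS : ∀ S, NormBlock v z (projS S (bF k)) (GS S) (eS S))
    {G : FY k} {e : Coord none → FY k} (nQ : NormBlock v z (genY k none) G e)
    (j : Option (Option OddSet)) (l l' : Coord j) (h : v.val (genY k j l') = vmax v.val (genY k j)) :
    ResGen v z (genY k j l / genY k j l') := by
  match j, l, l', h with
  | none, l, l', h => exact nQ.ratio hz l l' h
  | some none, l, l', h => exact nb.ratio hz l l' h
  | some (some S), l, l', h => exact (nS S).ratio hz l l' h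

lemma resGen_rest {n : ℕ} {z : Fin n → FY k} (hz : ∀ i, v.val (z i) ≤ 1)
    {eb : Fin 5 → FY k} {eS : OddSet → Fin 5 → FY k}
    (hb : ∀ l, ResGen v z (eb l)) (hS : ∀ S l, ResGen v z (eS S l)) (c : Coord none) :
    ResGen v z (eb c.2.1 ^ qE c.1 * (∏ S, eS S (c.2.2 S)) ^ qF c.1) :=
  ((hb _).pow hz _).mul hz ((ResGen.prod hz _ _ fun S => hS S _).pow hz _)

/-- The last block in the nondegenerate case. -/
lemma normBlock_Q {n : ℕ} {z : Fin n → FY k} (hz : ∀ i, v.val (z i) ≤ 1) {Gb : FY k}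
    {eb : Fin 5 → FY k} {GS : OddSet → FY k} {eS : OddSet → Fin 5 → FY k}
    (nb : NormBlock v z (bF k) Gb eb) (nS : ∀ S, NormBlock v z (projS S (bF k)) (GS S) (eS S))
    {G : FY k} (hG : G ≠ 0) {q : Fin 4 → FY k} (heq : ∀ c, genY k none c = G * eQ q eb eS c)
    (hq : ∀ t, ResGen v z (q t)) (hunit : v.val (q 0) = 1 ∨ v.val (q 1) = 1) :
    NormBlock v z (genY k none) G (eQ q eb eS) := by
  refine ⟨hG, heq, fun c => (hq _).mul hz (resGen_rest hz nb.gen (fun S => (nS S).gen) c), ?_⟩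
  obtain ⟨i, hi⟩ := nb.unit
  rcases hunit with h | h
  · refine ⟨(0, i, fun _ => 0), ?_⟩
    simp only [eQ, qE, qF, Matrix.cons_val_zero, pow_zero, mul_one, map_mul, map_pow, h, hi,
      one_pow]
  · refine ⟨(1, i, fun _ => 0), ?_⟩
    simp only [eQ, qE, qF, Matrix.cons_val_one, Matrix.cons_val_zero, pow_zero, mul_one, map_mul,
      map_pow, h, hi, one_pow]

/-- The last block when the coordinate `T` dominates. -/
lemma normBlock_vertex {n : ℕ} {z : Fin n → FY k} (hz : ∀ i, v.val (z i) ≤ 1) {Gb : FY k}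
    {eb : Fin 5 → FY k} {GS : OddSet → FY k} {eS : OddSet → Fin 5 → FY k}
    (nb : NormBlock v z (bF k) Gb eb) (nS : ∀ S, NormBlock v z (projS S (bF k)) (GS S) (eS S))
    {G : FY k} (hG : G ≠ 0) {q : Fin 4 → FY k} (heq : ∀ c, genY k none c = G * eQ q eb eS c)
    (h3 : q 3 ≠ 0) (hlt : ∀ t, t ≠ 3 → v.val (q t) < v.val (q 3)) :
    NormBlock v z (genY k none) (G * q 3) (eQ (fun t => q t / q 3) eb eS) := by
  have hv3 : v.val (q 3) ≠ 0 := (Valuation.ne_zero_iff _).mpr h3
  refine ⟨mul_ne_zero hG h3, fun c => ?_, fun c => ?_, ?_⟩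
  · rw [heq]
    simp only [eQ]
    field_simp
  · refine ResGen.mul hz ?_ (resGen_rest hz nb.gen (fun S => (nS S).gen) c)
    by_cases hc : c.1 = 3
    · rw [hc]
      beta_reduce
      rw [div_self h3]; exact ResGen.one
    · apply ResGen.of_lt
      rw [map_div₀]
      exact (div_lt_one₀ (zero_lt_iff.mpr hv3)).mpr (hlt _ hc)
  · obtain ⟨i, hi⟩ := nb.unit
    choose l hl using fun S => (nS S).unit
    refine ⟨(3, i, l), ?_⟩
    simp only [eQ, qE, qF, Matrix.cons_val, pow_zero, one_mul, div_self h3, map_pow, map_prod, hl,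
      Finset.prod_const_one, one_pow]

/-- **The charts of `Y`.** -/
theorem exists_chart (hv : IsPrimeDivisor 6 (genY k) v) :
    ∃ (z : Fin 6 → FY k) (c : ℤᵐ⁰), (∀ i, v.val (z i) ≤ 1) ∧
      Comp v c (tup (b4 k) (XF k 4) (XF k 5)) z ∧
      (∀ j l l', v.val (genY k j l') = vmax v.val (genY k j) →
        ResGen v z (genY k j l / genY k j l')) ∧
      c * v.val (XF k 4 * (1 + XF k 4)) * vmax v.val (bF k) ^ 14 =
        ∏ S : OddSet, vmax v.val (projS S (bF k)) := by
  classical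
  obtain ⟨u, cB, Gb, eb, GS, eS, hB⟩ := exists_baseChart v
  obtain ⟨s', w', lam, c', c0, c1, hs'le, hs1v, hs'0, hs1'0, hw'0, hlam, hcomp, hc', hcc, h0, h1,
    h2, h3⟩ := exists_fibre v (b4 k) (XF k 4) (XF k 5) (XF_ne_zero 4) one_add_s_ne_zero
      (XF_ne_zero 5)
  have hGb0 : Gb ≠ 0 := hB.nb.ne
  have hGS0 : ∀ S, GS S ≠ 0 := fun S => (hB.nS S).ne
  set γ : FY k := (∏ S, GS S) ^ 4 / Gb ^ 57 with hγ
  have hγ0 : γ ≠ 0 := div_ne_zero (pow_ne_zero _ (Finset.prod_ne_zero_iff.mpr fun S _ => hGS0 S))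
    (pow_ne_zero _ hGb0)
  set wt : FY k := γ * w' with hwt
  have hwt0 : wt ≠ 0 := mul_ne_zero hγ0 hw'0
  set P' : FY k := s' * (1 + s') with hP'
  have hP'0 : P' ≠ 0 := mul_ne_zero hs'0 hs1'0
  set Tt : FY k := wt ^ 4 / P' with hTt
  have hTt0 : Tt ≠ 0 := div_ne_zero (pow_ne_zero _ hwt0) hP'0
  have hvP' : v.val P' = v.val s' := by rw [hP', map_mul, hs1v, mul_one]
  have hG0 : lam * (s' * (1 + s')) * Gb ^ 228 ≠ 0 :=
    mul_ne_zero (mul_ne_zero hlam hP'0) (pow_ne_zero _ hGb0)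
  have heq : ∀ c, genY k none c = (lam * (s' * (1 + s')) * Gb ^ 228) *
      eQ (qn c0 c1 wt Tt) eb eS c := fun c =>
    pts_none_eq (bF k) (XF k 4) (XF k 5) Gb hGb0 eb hB.nb.eq GS eS (fun S => (hB.nS S).eq) s' w'
      lam c0 c1 hs'0 hs1'0 h0 h1 h2 h3 c
  have hvs' : v.val s' ≠ 0 := (Valuation.ne_zero_iff _).mpr hs'0
  have hvwt : v.val wt ≠ 0 := (Valuation.ne_zero_iff _).mpr hwt0
  have hvT : v.val Tt * v.val s' = v.val wt ^ 4 := by
    rw [hTt, map_div₀, hvP', map_pow, div_mul_cancel₀ _ hvs']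
  -- sizes of `c0`, `c1`
  have hm1 : v.val (-1 - s') = 1 := by
    have e : -1 - s' = -(1 + s') := by ring
    rw [e, Valuation.map_neg, hs1v]
  have hc0le : v.val c0 ≤ 1 := by
    rcases hcc with ⟨h, _⟩ | ⟨h, _⟩ | ⟨h, _⟩
    · rw [h]; exact hs'le
    · rw [h, hm1]
    · rw [h, map_one]
  have hc1le : v.val c1 ≤ 1 := by
    rcases hcc with ⟨_, h⟩ | ⟨_, h⟩ | ⟨_, h⟩
    · rw [h, map_one]
    · rw [h, map_one]
    · rw [h]; exact hs'le
  have hcunit : v.val c0 = 1 ∨ v.val c1 = 1 := by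
    rcases hcc with ⟨_, h⟩ | ⟨_, h⟩ | ⟨h, _⟩
    · right; rw [h, map_one]
    · right; rw [h, map_one]
    · left; rw [h, map_one]
  have hcgen : ∀ {n : ℕ} {z : Fin n → FY k}, (∀ i, v.val (z i) ≤ 1) → ResGen v z s' →
      ResGen v z c0 ∧ ResGen v z c1 := by
    intro n z hz hs
    rcases hcc with ⟨h, h'⟩ | ⟨h, h'⟩ | ⟨h, h'⟩
    · rw [h, h']; exact ⟨hs, ResGen.one⟩
    · rw [h, h']; exact ⟨(ResGen.one.neg hz).sub hz hs, ResGen.one⟩
    · rw [h, h']; exact ⟨ResGen.one, hs⟩
  -- the vertex is excluded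
  have hvertex : ¬ (1 < v.val Tt ∧ v.val wt < v.val Tt) := by
    rintro ⟨hT1, hwT⟩
    refine not_isPrimeDivisor (genY k) v (by norm_num) u hB.hu
      (hres_of hB.hu hB.nb hB.nS (normBlock_vertex hB.hu hB.nb hB.nS hG0 heq ?_ ?_)) hv
    · exact hTt0
    · intro t ht
      fin_cases t
      · exact lt_of_le_of_lt hc0le hT1
      · exact lt_of_le_of_lt hc1le hT1
      · exact hwT
      · exact absurd rfl ht
  have hTle : v.val Tt ≤ 1 := by
    by_contra hT
    have hT1 : 1 < v.val Tt := not_le.mp hT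
    apply hvertex
    refine ⟨hT1, ?_⟩
    by_contra hw
    have hw1 : v.val Tt ≤ v.val wt := not_lt.mp hw
    have h4 : v.val wt ^ 4 ≤ v.val wt := by
      rw [← hvT]
      exact (mul_le_of_le_one_right' hs'le).trans hw1
    have h5 : 1 < v.val wt := lt_of_lt_of_le hT1 hw1
    exact absurd h4 (not_le.mpr (lt_self_pow₀ h5 (by norm_num)))
  have hwle : v.val wt ≤ 1 := by
    have h4 : v.val wt ^ 4 ≤ 1 := by
      rw [← hvT]
      exact mul_le_one' hTle hs'le
    exact (pow_le_one_iff_of_nonneg zero_le (by norm_num)).mp h4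
  -- the total factor
  have hγmem : ∀ E : IntermediateField k (FY k), (∀ i, b4 k i ∈ E) → γ ∈ E := by
    intro E hE
    have hle : IntermediateField.adjoin k (Set.range (b4 k)) ≤ E := by
      rw [IntermediateField.adjoin_le_iff]
      rintro _ ⟨i, rfl⟩
      exact hE i
    exact div_mem (pow_mem (prod_mem fun S _ => hle (hB.hGS S)) 4) (pow_mem (hle hB.hGb) 57)
  have hcomp2 := hcomp.trans (comp_w v (b4 k) s' w' γ hγ0 (fun E hE _ => hγmem E hE))
  have hVb : vmax v.val (bF k) = v.val Gb := hB.nb.vmax_eq hB.hu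
  have hVS : ∀ S, vmax v.val (projS S (bF k)) = v.val (GS S) := fun S => (hB.nS S).vmax_eq hB.hu
  have hvGb : v.val Gb ≠ 0 := (Valuation.ne_zero_iff _).mpr hGb0
  have hfactor : v.val γ * cB * vmax v.val (bF k) ^ 14 =
      ∏ S : OddSet, vmax v.val (projS S (bF k)) := by
    have e1 : v.val γ = (∏ S, v.val (GS S)) ^ 4 / v.val Gb ^ 57 := by
      rw [hγ, map_div₀, map_pow, map_pow, map_prod]
    have e2 := hB.hc
    rw [Finset.prod_pow] at e2
    rw [hVb, e1, Finset.prod_congr rfl fun S _ => hVS S]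
    have e3 : v.val Gb ^ 57 = v.val Gb ^ 43 * v.val Gb ^ 14 := by rw [← pow_add]
    have h43 : v.val Gb ^ 43 ≠ 0 := pow_ne_zero _ hvGb
    have h14 : v.val Gb ^ 14 ≠ 0 := pow_ne_zero _ hvGb
    rw [e3, div_mul_eq_mul_div, div_mul_eq_mul_div, div_eq_iff (mul_ne_zero h43 h14)]
    calc (∏ S, v.val (GS S)) ^ 4 * cB * v.val Gb ^ 14
        = (∏ S, v.val (GS S)) * (cB * (∏ S, v.val (GS S)) ^ 3) * v.val Gb ^ 14 := by
          rw [pow_succ (∏ S, v.val (GS S)) 3]
          generalize (∏ S, v.val (GS S)) ^ 3 = A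
          ac_rfl
      _ = _ := by rw [e2, mul_assoc]
  by_cases hs1 : v.val s' = 1
  · -- first type
    have hz : ∀ i, v.val (tup u s' wt i) ≤ 1 := by
      intro i
      fin_cases i
      · exact hB.hu 0
      · exact hB.hu 1
      · exact hB.hu 2
      · exact hB.hu 3
      · exact hs'le
      · exact hwle
    have hu : ∀ i, ResGen v (tup u s' wt) (u i) := by
      intro i
      have := ResGen.var (v := v) (z := tup u s' wt) (c46 i)
      have e : tup u s' wt (c46 i) = u i := by fin_cases i <;> rfl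
      rwa [e] at this
    have hs : ResGen v (tup u s' wt) s' := ResGen.var (v := v) (z := tup u s' wt) 4
    have hwr : ResGen v (tup u s' wt) wt := ResGen.var (v := v) (z := tup u s' wt) 5
    have hTr : ResGen v (tup u s' wt) Tt := by
      refine (hwr.pow hz 4).div hz (hs.mul hz (ResGen.one.add hz hs)) ?_
      rw [map_mul, hs1, hs1v, one_mul]
    refine ⟨tup u s' wt, c' * v.val γ * cB, hz, hcomp2.trans (hB.comp s' wt), ?_, ?_⟩
    · refine hres_of hz (hB.nb.mono hz hu) (fun S => (hB.nS S).mono hz hu)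
        (normBlock_Q hz (hB.nb.mono hz hu) (fun S => (hB.nS S).mono hz hu) hG0 heq ?_ hcunit)
      intro t
      fin_cases t
      · exact (hcgen hz hs).1
      · exact (hcgen hz hs).2
      · exact hwr
      · exact hTr
    · rw [← hfactor]
      calc c' * v.val γ * cB * v.val (XF k 4 * (1 + XF k 4)) * vmax v.val (bF k) ^ 14
          = (c' * v.val (XF k 4 * (1 + XF k 4))) * (v.val γ * cB * vmax v.val (bF k) ^ 14) := by
            ac_rfl
        _ = _ := by rw [hc', hs1, one_mul]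
  · -- second type
    have hs'lt : v.val s' < 1 := lt_of_le_of_ne hs'le hs1
    have hwlt : v.val wt < 1 := by
      have h4 : v.val wt ^ 4 < 1 := by
        rw [← hvT]
        exact lt_of_le_of_lt (mul_le_of_le_one_left' hTle) hs'lt
      exact (pow_lt_one_iff_of_nonneg zero_le (by norm_num)).mp h4
    have hT1 : v.val Tt = 1 := by
      by_contra hT
      have hTlt : v.val Tt < 1 := lt_of_le_of_ne hTle hT
      refine not_isPrimeDivisor (genY k) v (by norm_num) u hB.hu
        (hres_of hB.hu hB.nb hB.nS (normBlock_Q hB.hu hB.nb hB.nS hG0 heq ?_ hcunit)) hv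
      intro t
      fin_cases t
      · exact (hcgen hB.hu (ResGen.of_lt hs'lt)).1
      · exact (hcgen hB.hu (ResGen.of_lt hs'lt)).2
      · exact ResGen.of_lt hwlt
      · exact ResGen.of_lt hTlt
    have hsw : v.val s' = v.val wt ^ 4 := by rw [← hvT, hT1, one_mul]
    set θ : FY k := (wt ^ 4)⁻¹ * s' with hθ
    have hwt4 : wt ^ 4 ≠ 0 := pow_ne_zero _ hwt0
    have hθv : v.val θ = 1 := by
      rw [hθ, map_mul, map_inv₀, map_pow, hsw, inv_mul_cancel₀ (pow_ne_zero _ hvwt)]
    have hz : ∀ i, v.val (tup u θ wt i) ≤ 1 := by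
      intro i
      fin_cases i
      · exact hB.hu 0
      · exact hB.hu 1
      · exact hB.hu 2
      · exact hB.hu 3
      · exact hθv.le
      · exact hwle
    have hu : ∀ i, ResGen v (tup u θ wt) (u i) := by
      intro i
      have := ResGen.var (v := v) (z := tup u θ wt) (c46 i)
      have e : tup u θ wt (c46 i) = u i := by fin_cases i <;> rfl
      rwa [e] at this
    have hs : ResGen v (tup u θ wt) s' := ResGen.of_lt hs'lt
    have hθr : ResGen v (tup u θ wt) θ := ResGen.var (v := v) (z := tup u θ wt) 4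
    have hwr : ResGen v (tup u θ wt) wt := ResGen.of_lt hwlt
    have hTr : ResGen v (tup u θ wt) Tt := by
      have e : Tt = 1 / (θ * (1 + s')) := by
        rw [hTt, hP', hθ]
        field_simp
      rw [e]
      refine ResGen.one.div hz (hθr.mul hz (ResGen.one.add hz hs)) ?_
      rw [map_mul, hθv, hs1v, one_mul]
    have hcomp3 := hcomp2.trans (comp_s v (b4 k) s' (γ * w') (wt ^ 4)⁻¹ (inv_ne_zero hwt4)
      (fun E _ hE => inv_mem (pow_mem hE 4)))
    refine ⟨tup u θ wt, c' * v.val γ * v.val (wt ^ 4)⁻¹ * cB, hz, hcomp3.trans (hB.comp θ wt),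
      ?_, ?_⟩
    · refine hres_of hz (hB.nb.mono hz hu) (fun S => (hB.nS S).mono hz hu)
        (normBlock_Q hz (hB.nb.mono hz hu) (fun S => (hB.nS S).mono hz hu) hG0 heq ?_ hcunit)
      intro t
      fin_cases t
      · exact (hcgen hz hs).1
      · exact (hcgen hz hs).2
      · exact hwr
      · exact hTr
    · rw [← hfactor]
      calc c' * v.val γ * v.val (wt ^ 4)⁻¹ * cB * v.val (XF k 4 * (1 + XF k 4)) *
            vmax v.val (bF k) ^ 14
          = (c' * v.val (XF k 4 * (1 + XF k 4))) * v.val (wt ^ 4)⁻¹ *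
            (v.val γ * cB * vmax v.val (bF k) ^ 14) := by ac_rfl
        _ = _ := by
          rw [hc', map_inv₀, map_pow, hsw, mul_inv_cancel₀ (pow_ne_zero _ hvwt), one_mul]

end

end NefK
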