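import Pool.Agent.Lib_helper87.Nef.XPoints
import Pool.Agent.Lib_helper87.NefK.Kernel

/-!
# The variety `Y`

`X` is the blow-up of `ℙ⁴` in the sixteen points `1_S`, with `L = 2H - ∑ E_S`,
`K_X = -5H + 3 ∑ E_S`, and `M = L - K_X = 7H - 4 ∑ E_S`.  The variety is
`Y = {w⁴ = p q (p + q) T} ⊆ ℙ_X(𝒪 ⊕ 𝒪 ⊕ M ⊕ 4M)`, of dimension 6, with canonical class the pull-back
of `L`.
-/

namespace NefK

open Nef87 NefRed Finset

/-- The index set of the homogeneous coordinates of the factors. -/
@[reducible] def Coord : Option (Option OddSet) → Type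
  | none => Fin 4 × Fin 5 × (OddSet → Fin 5)
  | some _ => Fin 5

instance instFintypeCoord : ∀ j, Fintype (Coord j)
  | none => inferInstanceAs (Fintype (Fin 4 × Fin 5 × (OddSet → Fin 5)))
  | some _ => inferInstanceAs (Fintype (Fin 5))

/-- The coordinates `p, q, w, T` of the fibres of `Y`, multiplied by `s (1 + s)`, for `p = s` and
`q = 1`. -/
def qCoef {R : Type} [CommRing R] (s w : R) : Fin 4 → R :=
  ![s * (s * (1 + s)), s * (1 + s), w * (s * (1 + s)), w ^ 4]

/-- Exponents of the coordinates of the point of `ℙ⁴`. -/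
def qE : Fin 4 → ℕ := ![228, 228, 171, 0]

/-- Exponents of the coordinates of the projections. -/
def qF : Fin 4 → ℕ := ![0, 0, 4, 16]

/-- The coordinates in all the blocks. -/
def pts {R : Type} [CommRing R] (b : Fin 5 → R) (s w : R) : ∀ j, Coord j → R
  | none => fun c => qCoef s w c.1 * b c.2.1 ^ qE c.1 * (∏ S, projS S b (c.2.2 S)) ^ qF c.1
  | some none => b
  | some (some S) => projS S b

/-- The blocks of polynomials. -/
noncomputable def blocksK : ∀ j, Coord j → MvPolynomial (Fin 5 ⊕ Fin 2) ℤ :=
  pts (fun i => MvPolynomial.X (Sum.inl i)) (MvPolynomial.X (Sum.inr 0)) (MvPolynomial.X (Sum.inr 1))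

lemma map_projS {R R' : Type} [CommRing R] [CommRing R'] (φ : R →+* R') (S : OddSet)
    (b : Fin 5 → R) (l : Fin 5) : φ (projS S b l) = projS S (fun i => φ (b i)) l := by
  unfold projS
  split_ifs <;> simp

lemma map_qCoef {R R' : Type} [CommRing R] [CommRing R'] (φ : R →+* R') (s w : R) (c : Fin 4) :
    φ (qCoef s w c) = qCoef (φ s) (φ w) c := by
  fin_cases c <;> simp [qCoef]

lemma map_pts {R R' : Type} [CommRing R] [CommRing R'] (φ : R →+* R') (b : Fin 5 → R) (s w : R)
    (j : Option (Option OddSet)) (l : Coord j) :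
    φ (pts b s w j l) = pts (fun i => φ (b i)) (φ s) (φ w) j l := by
  match j, l with
  | none, c =>
    simp only [pts, map_mul, map_pow, map_prod, map_qCoef, map_projS]
  | some none, i => rfl
  | some (some S), i => exact map_projS φ S b i

lemma aeval_blocksK {K : Type} [Field K] (g : Fin 5 ⊕ Fin 2 → K) (j : Option (Option OddSet))
    (l : Coord j) : MvPolynomial.aeval g (blocksK j l) =
      pts (fun i => g (Sum.inl i)) (g (Sum.inr 0)) (g (Sum.inr 1)) j l := by
  have h := map_pts (MvPolynomial.aeval g : MvPolynomial (Fin 5 ⊕ Fin 2) ℤ →ₐ[ℤ] K).toRingHom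
    (fun i => MvPolynomial.X (Sum.inl i)) (MvPolynomial.X (Sum.inr 0)) (MvPolynomial.X (Sum.inr 1)) j l
  simp only [AlgHom.toRingHom_eq_coe, RingHom.coe_coe, MvPolynomial.aeval_X] at h
  exact h

/-- The multidegree of our line bundle: `-14` on the factor `ℙ⁴`, `1` on the sixteen factors of the
projections, `0` on the last factor. -/
def weightK : Option (Option OddSet) → ℤ
  | none => 0
  | some none => -14
  | some (some _) => 1

/-- All points in the image of the parametrisation are points of `Y`. -/
lemma pts_mem {K : Type} [Field K] (b : Fin 5 → K) (s w : K) :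
    ∀ f ∈ graphIdeal blocksK, evalAt (pts b s w) f = 0 := by
  intro f hf
  have h := graphIdeal_eval blocksK (Sum.elim b ![s, w]) (fun _ => 1) f hf
  simp only [one_mul, aeval_blocksK] at h
  exact h

/-- The relations between the blocks. -/
lemma mem_graphIdeal_minor (S : OddSet) (l m : Fin 5) :
    (MvPolynomial.X ⟨some (some S), l⟩ *
        projS S (fun i : Fin 5 => (MvPolynomial.X ⟨some none, i⟩ :
          MvPolynomial ((j : Option (Option OddSet)) × Coord j) ℤ)) m -
      MvPolynomial.X ⟨some (some S), m⟩ *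
        projS S (fun i : Fin 5 => (MvPolynomial.X ⟨some none, i⟩ :
          MvPolynomial ((j : Option (Option OddSet)) × Coord j) ℤ)) l)
        ∈ graphIdeal blocksK := by
  have h1 : ∀ l : Fin 5, phi blocksK (projS S (fun i : Fin 5 =>
      (MvPolynomial.X ⟨some none, i⟩ :
        MvPolynomial ((j : Option (Option OddSet)) × Coord j) ℤ)) l) =
      MvPolynomial.X (Sum.inr (some none)) *
        MvPolynomial.rename Sum.inl (projS S (fun i =>
          (MvPolynomial.X (Sum.inl i) : MvPolynomial (Fin 5 ⊕ Fin 2) ℤ)) l) := by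
    intro l
    unfold projS
    split_ifs
    · simp [phi, blocksK, pts]
      ring
    · simp [phi, blocksK, pts]
  have h2 : ∀ l : Fin 5, phi blocksK (MvPolynomial.X ⟨some (some S), l⟩) =
      MvPolynomial.X (Sum.inr (some (some S))) *
        MvPolynomial.rename Sum.inl (projS S (fun i =>
          (MvPolynomial.X (Sum.inl i) : MvPolynomial (Fin 5 ⊕ Fin 2) ℤ)) l) := by
    intro l
    simp [phi, blocksK, pts]
  change phi blocksK _ = 0
  rw [map_sub, map_mul, map_mul, h1, h1, h2, h2]
  ring

lemma rel_of_pointK {K : Type} [Field K] {x : ∀ j, Coord j → K}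
    (hx : ∀ f ∈ graphIdeal blocksK, evalAt x f = 0) (S : OddSet) (l m : Fin 5) :
    x (some (some S)) l * projS S (x (some none)) m =
      x (some (some S)) m * projS S (x (some none)) l := by
  have h := hx _ (mem_graphIdeal_minor S l m)
  have h1 : ∀ l : Fin 5, evalAt x (projS S (fun i : Fin 5 =>
      (MvPolynomial.X ⟨some none, i⟩ :
        MvPolynomial ((j : Option (Option OddSet)) × Coord j) ℤ)) l) =
        projS S (x (some none)) l := by
    intro l
    unfold projS evalAt
    split_ifs <;> simp
  rw [map_sub, map_mul, map_mul, h1, h1, sub_eq_zero] at h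
  simp only [evalAt, MvPolynomial.aeval_X] at h
  exact h

end NefK
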