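import Pool.Agent.Lib_helper87.NefK.YBase2

/-!
# Normalisation of the fibre coordinates
-/

namespace NefK

open Nef87 NefRed Finset
open scoped WithZero

section

variable {k F : Type} [Field k] [Field F] [Algebra k F]

lemma update_tup4 (β : Fin 4 → F) (s w x : F) :
    Function.update (tup β s w) 4 x = tup β x w := by
  funext i
  fin_cases i <;> simp [tup, Function.update]

/-- Scaling the last coordinate. -/
lemma comp_w (v : Place k F) (β : Fin 4 → F) (s w μ : F) (hμ : μ ≠ 0)
    (hmem : ∀ E : IntermediateField k F, (∀ i, β i ∈ E) → s ∈ E → μ ∈ E) :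
    Comp v (v.val μ) (tup β s w) (tup β s (μ * w)) := by
  have h := comp_smul v (tup β s w) {5} μ hμ (hmem _ (fun i => by
      apply IntermediateField.subset_adjoin
      refine ⟨c46 i, ?_, ?_⟩
      · have : ∀ i : Fin 4, c46 i ≠ 5 := by decide
        simpa using this i
      · fin_cases i <;> rfl) (by
      apply IntermediateField.subset_adjoin
      exact ⟨4, by simp, rfl⟩))
  rw [Finset.card_singleton, pow_one] at h
  have e : (fun i => if i ∈ ({5} : Finset (Fin 6)) then μ * tup β s w i else tup β s w i) =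
      tup β s (μ * w) := by
    funext i
    fin_cases i <;> simp [tup]
  rw [e] at h
  exact h

/-- Scaling the coordinate before the last one. -/
lemma comp_s (v : Place k F) (β : Fin 4 → F) (s w μ : F) (hμ : μ ≠ 0)
    (hmem : ∀ E : IntermediateField k F, (∀ i, β i ∈ E) → w ∈ E → μ ∈ E) :
    Comp v (v.val μ) (tup β s w) (tup β (μ * s) w) := by
  have h := comp_smul v (tup β s w) {4} μ hμ (hmem _ (fun i => by
      apply IntermediateField.subset_adjoin
      refine ⟨c46 i, ?_, ?_⟩
      · have : ∀ i : Fin 4, c46 i ≠ 4 := by decide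
        simpa using this i
      · fin_cases i <;> rfl) (by
      apply IntermediateField.subset_adjoin
      exact ⟨5, by simp, rfl⟩))
  rw [Finset.card_singleton, pow_one] at h
  have e : (fun i => if i ∈ ({4} : Finset (Fin 6)) then μ * tup β s w i else tup β s w i) =
      tup β (μ * s) w := by
    funext i
    fin_cases i <;> simp [tup]
  rw [e] at h
  exact h

/-- Fibre coordinates with `|s| ≤ 1` and `|1 + s| = 1`. -/
theorem exists_fibre (v : Place k F) (β : Fin 4 → F) (s w : F) (hs : s ≠ 0) (hs1 : 1 + s ≠ 0)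
    (hw : w ≠ 0) :
    ∃ (s' w' lam : F) (c' : ℤᵐ⁰) (c0 c1 : F), v.val s' ≤ 1 ∧ v.val (1 + s') = 1 ∧ s' ≠ 0 ∧
      1 + s' ≠ 0 ∧ w' ≠ 0 ∧ lam ≠ 0 ∧ Comp v c' (tup β s w) (tup β s' w') ∧
      c' * v.val (s * (1 + s)) = v.val s' ∧
      (c0 = s' ∧ c1 = 1 ∨ c0 = -1 - s' ∧ c1 = 1 ∨ c0 = 1 ∧ c1 = s') ∧
      s * (s * (1 + s)) = lam * (s' * (1 + s')) * c0 ∧
      s * (1 + s) = lam * (s' * (1 + s')) * c1 ∧
      w * (s * (1 + s)) = lam * (s' * (1 + s')) * w' ∧ w ^ 4 = lam * w' ^ 4 := by
  have hvs : v.val s ≠ 0 := (Valuation.ne_zero_iff _).mpr hs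
  by_cases h1 : v.val s ≤ 1
  · have h2 : v.val (1 + s) ≤ 1 := by
      refine (Valuation.map_add _ _ _).trans (max_le ?_ h1)
      rw [map_one]
    by_cases h3 : v.val (1 + s) = 1
    · refine ⟨s, w, 1, 1, s, 1, h1, h3, hs, hs1, hw, one_ne_zero, Comp.refl v _, ?_,
        Or.inl ⟨rfl, rfl⟩, by ring, by ring, by ring, by ring⟩
      rw [one_mul, map_mul, h3, mul_one]
    · have h4 : v.val (1 + s) < 1 := lt_of_le_of_ne h2 h3
      have h5 : v.val s = 1 := by
        have e : s = (1 + s) - 1 := by ring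
        rw [e]
        have := Valuation.map_sub_eq_of_lt_right (x := 1 + s) (y := 1) v.val (by rwa [map_one])
        rw [this, map_one]
      have h6 : v.val (-1 - s) = v.val (1 + s) := by
        rw [← Valuation.map_neg]; congr 1; ring
      refine ⟨-1 - s, w, 1, 1, -1 - (-1 - s), 1, ?_, ?_, ?_, ?_, hw, one_ne_zero, ?_, ?_,
        Or.inr (Or.inl ⟨rfl, rfl⟩), by ring, by ring, by ring, by ring⟩
      · rw [h6]; exact h2
      · have e : 1 + (-1 - s) = -s := by ring
        rw [e, Valuation.map_neg, h5]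
      · intro h; apply hs1
        have : 1 + s = -(-1 - s) := by ring
        rw [this, h, neg_zero]
      · have e : 1 + (-1 - s) = -s := by ring
        rw [e]; exact neg_ne_zero.mpr hs
      · have h7 := comp_const_sub v (tup β s w) 4 (-1 : k)
        have e : algebraMap k F (-1) - tup β s w 4 = -1 - s := by
          rw [map_neg, map_one]; rfl
        rw [e, update_tup4] at h7
        exact h7
      · rw [one_mul, map_mul, h5, one_mul, h6]
  · have h1' : 1 < v.val s := not_le.mp h1
    have h2 : v.val (1 + s) = v.val s := by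
      refine Valuation.map_add_eq_of_lt_right v.val ?_
      rwa [map_one]
    have hinv : v.val s⁻¹ < 1 := by
      rw [map_inv₀]
      exact inv_lt_one_of_one_lt₀ h1'
    have e1 : 1 + s⁻¹ = (1 + s) / s := by
      field_simp
      ring
    refine ⟨s⁻¹, s⁻¹ * w, s ^ 4, v.val s ^ (-2 : ℤ) * v.val s⁻¹, 1, s⁻¹, hinv.le, ?_,
      inv_ne_zero hs, ?_, mul_ne_zero (inv_ne_zero hs) hw, pow_ne_zero _ hs, ?_, ?_,
      Or.inr (Or.inr ⟨rfl, rfl⟩), ?_, ?_, ?_, ?_⟩
    · rw [e1, map_div₀, h2, div_self hvs]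
    · rw [e1]; exact div_ne_zero hs1 hs
    · have h3 := comp_inv v (tup β s w) 4 hs
      rw [update_tup4] at h3
      have h4 := comp_w v β s⁻¹ w s⁻¹ (inv_ne_zero hs) (fun E _ hE => hE)
      exact h3.trans h4
    · rw [map_mul, h2, map_inv₀]
      rw [← zpow_neg_one, ← zpow_add₀ hvs]
      have : v.val s * v.val s = v.val s ^ (2 : ℤ) := by
        rw [← pow_two, ← zpow_natCast]; rfl
      rw [this, ← zpow_add₀ hvs]
      norm_num
    · rw [e1]; field_simp
    · rw [e1]; field_simp
    · rw [e1]; field_simp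
    · field_simp

end

end NefK
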