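import Pool.Agent.Lib_helper87.NefK.YDefs

/-!
# Nefness of the line bundle on `Y` over `ℚbar`, and its failure modulo `p`
-/

namespace NefK

open Nef87 NefRed Finset
open scoped WithZero

/-- Nonnegativity over `ℚbar` for points satisfying the relations. -/
theorem nonneg_of_rel (K : Type) [Field K] [Algebra (AlgebraicClosure ℚ) K]
    (hK : IsFunctionField (AlgebraicClosure ℚ) K) (y : Fin 5 → K) (z : OddSet → Fin 5 → K)
    (hy : ∃ l, y l ≠ 0) (hz : ∀ S, ∃ l, z S l ≠ 0)
    (hrel : ∀ S l m, z S l * projS S y m = z S m * projS S y l) :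
    0 ≤ ∑ S : OddSet, degO1 (AlgebraicClosure ℚ) (z S) - 14 * degO1 (AlgebraicClosure ℚ) y := by
  classical
  obtain ⟨alg, tower, fd, sep, _⟩ := exists_model (AlgebraicClosure ℚ) K hK y
  by_cases hS : ∀ S : OddSet, ∃ i, projS S y i ≠ 0
  · have h1 := nonneg_char_zero K hK y hy hS
    have h2 : ∀ S : OddSet, degO1 (AlgebraicClosure ℚ) (z S) =
        degO1 (AlgebraicClosure ℚ) (projS S y) := by
      intro S
      obtain ⟨m, hm⟩ := hS S
      obtain ⟨l, hl⟩ := hz S
      have h3 : ∀ l, z S l = (z S m / projS S y m) * projS S y l := by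
        intro l
        rw [div_mul_eq_mul_div, eq_div_iff hm]
        exact hrel S l m
      have h4 : z S m / projS S y m ≠ 0 := by
        intro h0
        rw [h3, h0, zero_mul] at hl
        exact hl rfl
      rw [← degO1_smul (z S m / projS S y m) h4 (projS S y) ⟨m, hm⟩]
      congr 1
      exact funext h3
    rw [Finset.sum_congr rfl fun S _ => h2 S]
    exact h1
  · push Not at hS
    obtain ⟨S, hS⟩ := hS
    -- the point lies over a centre
    set μ := y (S.1.min' S.nonempty) with hμ
    have hval : ∀ i, y i = μ * (if i ∈ S.1 then 1 else 0) := by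
      intro i
      have := hS i
      unfold projS at this
      split_ifs at this with hi
      · rw [if_pos hi, mul_one]; exact sub_eq_zero.mp this
      · rw [if_neg hi, mul_zero]; exact this
    have hμ0 : μ ≠ 0 := by
      intro h0
      obtain ⟨i, hi⟩ := hy
      rw [hval, h0, zero_mul] at hi
      exact hi rfl
    have hc : degO1 (AlgebraicClosure ℚ) y = 0 := by
      have e : y = fun i => μ * (if i ∈ S.1 then (1 : K) else 0) := funext hval
      rw [e, degO1_smul μ hμ0 _ ⟨S.1.min' S.nonempty, by
        rw [if_pos (S.1.min'_mem S.nonempty)]; exact one_ne_zero⟩]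
      unfold degO1
      have h5 : ∀ v : Place (AlgebraicClosure ℚ) K,
          WithZero.log (vmax v.val fun i : Fin 5 => if i ∈ S.1 then (1 : K) else 0) = 0 := by
        intro v
        have h6 : vmax v.val (fun i : Fin 5 => if i ∈ S.1 then (1 : K) else 0) = 1 := by
          apply le_antisymm
          · refine Finset.sup_le fun i _ => ?_
            beta_reduce
            split_ifs
            · rw [map_one]
            · rw [map_zero]; exact zero_le
          · have h7 := le_vmax v.val (fun i : Fin 5 => if i ∈ S.1 then (1 : K) else 0)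
              (S.1.min' S.nonempty)
            beta_reduce at h7
            rw [if_pos (S.1.min'_mem S.nonempty), map_one] at h7
            exact h7
        rw [h6, WithZero.log_one]
      simp [h5]
    rw [hc, mul_zero, sub_zero]
    exact Finset.sum_nonneg fun S' _ => degO1_nonneg _ (hz S')

lemma sum_weightK {K : Type} [Field K] (g : (j : Option (Option OddSet)) → ℤ) :
    ∑ j, weightK j * g j = ∑ S : OddSet, g (some (some S)) - 14 * g (some none) := by
  rw [Fintype.sum_option, Fintype.sum_option]
  simp only [weightK, one_mul, zero_mul, zero_add]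
  ring

theorem isNef_Y : IsNef (AlgebraicClosure ℚ) (graphIdeal blocksK) weightK := by
  intro K _ _ hK x hx
  rw [sum_weightK (K := K) (fun j => degO1 (AlgebraicClosure ℚ) (x j))]
  exact nonneg_of_rel K hK (x (some none)) (fun S => x (some (some S))) (hx.1 (some none))
    (fun S => hx.1 (some (some S))) (fun S l m => rel_of_pointK hx.2 S l m)

theorem not_isNef_Y (p : ℕ) (hp : p.Prime) (hp5 : 5 ≤ p) (κ : Type) [Field κ] [IsAlgClosed κ]
    [CharP κ p] : ¬ IsNef κ (graphIdeal blocksK) weightK := by
  classical
  intro hnef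
  obtain ⟨m', hm'⟩ := hp.odd_of_ne_two (by omega)
  obtain ⟨m, rfl⟩ : ∃ m, p = 2 * m + 3 := ⟨m' - 1, by omega⟩
  have : Fact (2 * m + 3).Prime := ⟨hp⟩
  obtain ⟨K, fK, aK, aR, tK, fdK, sepK, y, hy, hS, hneg⟩ := exists_negative κ (m := m) (by omega)
  have hchar : CharP K (2 * m + 3) := charP_of_injective_algebraMap (algebraMap κ K).injective _
  have h2 : (1 + 1 : K) ≠ 0 := by
    intro h
    have h3 : ((2 : ℕ) : K) = 0 := by
      push_cast
      rw [← h]; ring
    rw [CharP.cast_eq_zero_iff K (2 * m + 3)] at h3
    have := Nat.le_of_dvd (by norm_num) h3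
    omega
  have hpt : IsPoint (graphIdeal blocksK) (pts y (1 : K) 0) := by
    refine ⟨?_, pts_mem y 1 0⟩
    intro j
    match j with
    | none =>
      obtain ⟨i, hi⟩ := hy
      refine ⟨(1, i, fun _ => 0), ?_⟩
      simp only [pts, qCoef, qE, qF]
      simp [hi, h2]
    | some none => exact hy
    | some (some S) => exact hS S
  have h := hnef K (isFunctionField_of_ratFunc κ K) (pts y (1 : K) 0) hpt
  rw [sum_weightK (K := K) (fun j => degO1 κ (pts y (1 : K) 0 j))] at h
  simp only [pts] at h
  linarith

end NefK
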